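import Pool.Agent.H.MP_a163f2_lc.P.P3

/-!
# Block P, part 5: absoluteness of Pi-1-2 statements (Shoenfield)
-/

set_option autoImplicit false
set_option linter.unusedSectionVars false

namespace Pool.Agent.H.MP_a163f2_lc

open Pool.Agent.H.MP_07d118_lc

universe u v w

/-- The Pi-1-2 statement with code `a` about `x` over `R`. -/
def U2 (R : Set (ℕ → ℕ)) (x a : ℕ → ℕ) : Prop :=
  ∀ y₂ ∈ R, ∃ y₃ ∈ R, ∀ k, a (cd (jn (jn x y₂) y₃) k) = 0

theorem U3_iff {R : Set (ℕ → ℕ)} {x a : ℕ → ℕ} : U3 R x a ↔ ∃ y ∈ R, U2 R (jn x y) a := Iff.rfl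

/-! ### Finite sequences as initial segments -/

/-- the real which continues the finite sequence `s` by `0` -/
def P5_fn (s : List ℕ) (i : ℕ) : ℕ := s.getD i 0

theorem P5_ini_length (x : ℕ → ℕ) (k : ℕ) : (ini x k).length = k := by
  simp [ini]

theorem P5_fn_ini {x : ℕ → ℕ} {k i : ℕ} (h : i < k) : P5_fn (ini x k) i = x i := by
  unfold P5_fn
  rw [List.getD_eq_getElem _ _ (by rw [P5_ini_length]; exact h)]
  simp [ini]

theorem P5_ini_congr {x y : ℕ → ℕ} {k : ℕ} (h : ∀ i < k, x i = y i) : ini x k = ini y k :=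
  List.map_congr_left fun i hi => h i (List.mem_range.1 hi)

theorem P5_ini_succ (x : ℕ → ℕ) (k : ℕ) : ini x (k + 1) = ini x k ++ [x k] := by
  unfold ini
  rw [List.range_succ, List.map_append]
  rfl

theorem P5_ini_pfx {x : ℕ → ℕ} {k : ℕ} {v : List ℕ} (h : v <+: ini x k) :
    v = ini x v.length := by
  induction k with
  | zero =>
    have : v = [] := by
      have h1 : ini x 0 = [] := rfl
      rw [h1] at h
      exact List.prefix_nil.1 h
    rw [this]
    rfl
  | succ k ih =>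
    rw [P5_ini_succ] at h
    rcases List.prefix_concat_iff.1 h with h1 | h1
    · rw [← P5_ini_succ] at h1
      rw [h1, P5_ini_length]
    · exact ih h1

theorem P5_ini_le {x : ℕ → ℕ} {j k : ℕ} (h : j ≤ k) : ini x j <+: ini x k := by
  induction k, h using Nat.le_induction with
  | base => exact List.prefix_refl _
  | succ k _ ih =>
    rw [P5_ini_succ]
    exact ih.trans (List.prefix_append _ _)

theorem P5_jn_congr {x x' y y' : ℕ → ℕ} {k m : ℕ} (hk : k ≤ 2 * m) (h1 : ∀ i < m, x i = x' i)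
    (h2 : ∀ i < m, y i = y' i) : ini (jn x y) k = ini (jn x' y') k := by
  refine P5_ini_congr fun i hi => ?_
  have h3 : i / 2 < m := by omega
  unfold jn
  rw [h1 _ h3, h2 _ h3]

theorem P5_lf_jn (x y : ℕ → ℕ) (i : ℕ) : jn x y (2 * i) = x i := by
  unfold jn
  have h1 : 2 * i % 2 = 0 := by omega
  have h2 : 2 * i / 2 = i := by omega
  rw [h1, h2]
  rfl

theorem P5_rg_jn (x y : ℕ → ℕ) (i : ℕ) : jn x y (2 * i + 1) = y i := by
  unfold jn
  have h1 : (2 * i + 1) % 2 = 1 := by omega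
  have h2 : (2 * i + 1) / 2 = i := by omega
  rw [h1, h2]
  rfl

/-! ### The calculus -/

section calculus

variable {R : Set (ℕ → ℕ)} {α : Type u} [Primcodable α]

theorem P5_imp (hR : RC R) {P Q : α → Prop} (hP : RP R P) (hQ : RP R Q) :
    RP R (fun a => P a → Q a) := by
  have h := RP.or hR (RP.not hR hP) hQ
  have e : (fun a => P a → Q a) = fun a => ¬ P a ∨ Q a := by
    funext a
    exact propext imp_iff_not_or
  rw [e]
  exact h

theorem P5_le (hR : RC R) {f g : α → ℕ} (hf : RF R f) (hg : RF R g) :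
    RP R (fun a => f a ≤ g a) := by
  have h := RP.not hR (RP.lt hR hg hf)
  have e : (fun a => f a ≤ g a) = fun a => ¬ g a < f a := by
    funext a
    exact propext not_lt.symm
  rw [e]
  exact h

theorem P5_pfx (hR : RC R) {f g : α → List ℕ} (hf : RF R f) (hg : RF R g) :
    RP R (fun a => f a <+: g a) := by
  refine RP.ex hR (P := fun a (t : List ℕ) => f a ++ t = g a) ?_
  have h1 : RF R (fun y : α × List ℕ => (f y.1, y.2)) :=
    RF.pair hR (RF.comp hR hf (RF.of_primrec hR Primrec.fst)) (RF.of_primrec hR Primrec.snd)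
  have h2 : RF R (fun y : List ℕ × List ℕ => y.1 ++ y.2) :=
    RF.of_primrec hR (Primrec.list_append.comp Primrec.fst Primrec.snd)
  exact RP.eq hR (RF.comp hR h2 h1) (RF.comp hR hg (RF.of_primrec hR Primrec.fst))

/-- the interleaving of two finite sequences -/
def P5_mix (X Y : List ℕ) (k : ℕ) : List ℕ :=
  (List.range k).map fun n => if n % 2 = 0 then X.getD (n / 2) 0 else Y.getD (n / 2) 0

theorem P5_mix_eq (x y : ℕ → ℕ) (k : ℕ) : P5_mix (ini x k) (ini y k) k = ini (jn x y) k := by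
  show P5_mix (ini x k) (ini y k) k = (List.range k).map (jn x y)
  unfold P5_mix
  refine List.map_congr_left fun n hn => ?_
  have hn' : n / 2 < k := by
    have := List.mem_range.1 hn
    omega
  have h1 : (ini x k).getD (n / 2) 0 = x (n / 2) := P5_fn_ini hn'
  have h2 : (ini y k).getD (n / 2) 0 = y (n / 2) := P5_fn_ini hn'
  rw [h1, h2]
  rfl

theorem P5_mix_prim : Primrec fun p : (List ℕ × List ℕ) × ℕ => P5_mix p.1.1 p.1.2 p.2 := by
  unfold P5_mix
  refine Primrec.list_map (Primrec.list_range.comp Primrec.snd) ?_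
  have h0 : Primrec fun q : ((List ℕ × List ℕ) × ℕ) × ℕ => q.2 / 2 :=
    Primrec.nat_div.comp Primrec.snd (Primrec.const 2)
  refine Primrec.ite ?_ ?_ ?_
  · exact Primrec.eq.comp (Primrec.nat_mod.comp Primrec.snd (Primrec.const 2)) (Primrec.const 0)
  · exact (Primrec.list_getD 0).comp (Primrec.fst.comp (Primrec.fst.comp Primrec.fst)) h0
  · exact (Primrec.list_getD 0).comp (Primrec.snd.comp (Primrec.fst.comp Primrec.fst)) h0

theorem P5_ini_jn (hR : RC R) {f g : α → ℕ → ℕ} (hf : RF R fun p : α × ℕ => ini (f p.1) p.2)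
    (hg : RF R fun p : α × ℕ => ini (g p.1) p.2) :
    RF R fun p : α × ℕ => ini (jn (f p.1) (g p.1)) p.2 := by
  have h := RF.comp hR (RF.of_primrec hR P5_mix_prim)
    (RF.pair hR (RF.pair hR hf hg) (RF.of_primrec hR (Primrec.snd (α := α) (β := ℕ))))
  simp only [P5_mix_eq] at h
  exact h

theorem P5_ini_fn (hR : RC R) {f : α → List ℕ} (hf : RF R f) :
    RF R fun p : α × ℕ => ini (P5_fn (f p.1)) p.2 := by
  have h1 : Primrec fun p : List ℕ × ℕ => ini (P5_fn p.1) p.2 := by
    unfold ini P5_fn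
    exact Primrec.list_map (Primrec.list_range.comp Primrec.snd)
      ((Primrec.list_getD 0).comp (Primrec.fst.comp Primrec.fst) Primrec.snd)
  exact RF.comp hR (RF.of_primrec hR h1) (RF.pair hR
    (RF.comp hR hf (RF.of_primrec hR Primrec.fst)) (RF.of_primrec hR Primrec.snd))

theorem P5_ini_ev (hR : RC R) {f : α → List ℕ} (hf : RF R f) :
    RF R fun p : α × ℕ => ini (fun i => P5_fn (f p.1) (2 * i)) p.2 := by
  have h1 : Primrec fun p : List ℕ × ℕ => ini (fun i => P5_fn p.1 (2 * i)) p.2 := by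
    unfold ini P5_fn
    exact Primrec.list_map (Primrec.list_range.comp Primrec.snd)
      ((Primrec.list_getD 0).comp (Primrec.fst.comp Primrec.fst)
        (Primrec.nat_mul.comp (Primrec.const 2) Primrec.snd))
  exact RF.comp hR (RF.of_primrec hR h1) (RF.pair hR
    (RF.comp hR hf (RF.of_primrec hR Primrec.fst)) (RF.of_primrec hR Primrec.snd))

/-- A relation on finite sequences has a code. -/
theorem P5_code (hR : RC R) {C : List ℕ → Prop} (hC : RP R C) :
    ∃ c ∈ R, ∀ s, c (Encodable.encode s) = 0 ↔ C s := by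
  classical
  have h : RP R (fun m : ℕ => ¬ ∀ s : List ℕ, Encodable.encode s = m → C s) := by
    refine RP.not hR (RP.all hR (P := fun (m : ℕ) (s : List ℕ) => Encodable.encode s = m → C s) ?_)
    exact P5_imp hR (RP.eq hR (RF.of_primrec hR (Primrec.encode.comp Primrec.snd))
      (RF.of_primrec hR Primrec.fst)) (RP.comp hR hC (RF.of_primrec hR Primrec.snd))
  refine ⟨_, RP.ind hR h, fun s => ?_⟩
  have e : (∀ s' : List ℕ, Encodable.encode s' = Encodable.encode s → C s') ↔ C s :=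
    ⟨fun h => h s rfl, fun h s' hs' => by rw [Encodable.encode_injective hs']; exact h⟩
  by_cases hs : C s
  · have := e.2 hs
    simp only [hs, iff_true]
    rw [if_neg (not_not.2 this)]
  · have : ¬ ∀ s' : List ℕ, Encodable.encode s' = Encodable.encode s → C s' :=
      fun h => hs (e.1 h)
    simp only [hs, iff_false]
    rw [if_pos this]
    exact one_ne_zero

/-! ### The trees -/

/-- `v` belongs to the tree of the approximations of the `y` with `jn z y` in the closed set with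
code `a`. -/
def P5_T (a z : ℕ → ℕ) (v : List ℕ) : Prop :=
  ∀ k, k ≤ 2 * v.length → a (Encodable.encode (ini (jn z (P5_fn v)) k)) = 0

theorem P5_T_branch {a z y : ℕ → ℕ} : (∀ m, P5_T a z (ini y m)) ↔ ∀ k, a (cd (jn z y) k) = 0 := by
  have e : ∀ m k, k ≤ 2 * m → ini (jn z (P5_fn (ini y m))) k = ini (jn z y) k := fun m k h =>
    P5_jn_congr h (fun _ _ => rfl) fun i hi => P5_fn_ini hi
  constructor
  · intro h k
    have h1 := h k k (by rw [P5_ini_length]; omega)
    rw [e k k (by omega)] at h1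
    exact h1
  · intro h m k hk
    rw [P5_ini_length] at hk
    rw [e m k hk]
    exact h k

theorem P5_T_congr {a z z' : ℕ → ℕ} {v : List ℕ} (h : ∀ i < v.length, z i = z' i) :
    P5_T a z v ↔ P5_T a z' v := by
  have e : ∀ k, k ≤ 2 * v.length → ini (jn z (P5_fn v)) k = ini (jn z' (P5_fn v)) k := fun k hk =>
    P5_jn_congr hk h fun _ _ => rfl
  constructor
  · intro h1 k hk
    rw [← e k hk]
    exact h1 k hk
  · intro h1 k hk
    rw [e k hk]
    exact h1 k hk

theorem P5_T_RP (hR : RC R) {a : ℕ → ℕ} (ha : a ∈ R) {z : α → ℕ → ℕ}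
    (hz : RF R fun p : α × ℕ => ini (z p.1) p.2) {f : α → List ℕ} (hf : RF R f) :
    RP R (fun p => P5_T a (z p) (f p)) := by
  refine RP.all hR (P := fun (p : α) (k : ℕ) => k ≤ 2 * (f p).length →
    a (Encodable.encode (ini (jn (z p) (P5_fn (f p))) k)) = 0) ?_
  refine P5_imp hR (P5_le hR (RF.of_primrec hR Primrec.snd) ?_) ?_
  · exact RF.comp hR (RF.of_primrec hR (f := fun l : List ℕ => 2 * l.length)
      (Primrec.nat_mul.comp (Primrec.const 2) Primrec.list_length))
      (RF.comp hR hf (RF.of_primrec hR Primrec.fst))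
  · refine RP.eq hR ?_ (RF.const hR 0)
    exact RF.comp hR ((RF.mem hR).2 ha) (RF.comp hR (RF.of_primrec hR Primrec.encode)
      (P5_ini_jn hR (g := fun p => P5_fn (f p)) hz (P5_ini_fn hR hf)))

theorem P5_jn_mem (hR : RC R) {x y : ℕ → ℕ} (hx : x ∈ R) (hy : y ∈ R) : jn x y ∈ R := by
  have h2 : RF R (fun n : ℕ => n / 2) :=
    RF.of_primrec hR (Primrec.nat_div.comp Primrec.id (Primrec.const 2))
  have h : RF R (fun n : ℕ => if n % 2 = 0 then x (n / 2) else y (n / 2)) := by
    refine RF.ite hR (RP.eq hR ?_ (RF.const hR 0)) (RF.comp hR ((RF.mem hR).2 hx) h2)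
      (RF.comp hR ((RF.mem hR).2 hy) h2)
    exact RF.of_primrec hR (Primrec.nat_mod.comp Primrec.id (Primrec.const 2))
  exact (RF.mem hR).1 h

theorem P5_lf_mem (hR : RC R) {z : ℕ → ℕ} (hz : z ∈ R) : (fun i => z (2 * i)) ∈ R :=
  (RF.mem hR).1 (RF.comp hR ((RF.mem hR).2 hz)
    (RF.of_primrec hR (Primrec.nat_mul.comp (Primrec.const 2) Primrec.id)))

/-- the condition on an attempt: the function coded by the odd values decreases on the tree -/
def P5_C (a x e : ℕ → ℕ) (s : List ℕ) : Prop :=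
  ∀ q : List ℕ × ℕ, (2 * (q.1.length + 1) ≤ s.length ∧ 2 * Encodable.encode q.1 + 1 < s.length ∧
    2 * Encodable.encode (q.1 ++ [q.2]) + 1 < s.length) →
    (∀ v, v <+: q.1 ++ [q.2] → P5_T a (jn x (fun i => P5_fn s (2 * i))) v) →
    e (Nat.pair (P5_fn s (2 * Encodable.encode (q.1 ++ [q.2]) + 1))
      (P5_fn s (2 * Encodable.encode q.1 + 1))) = 1

theorem P5_C_RP (hR : RC R) {a x e : ℕ → ℕ} (ha : a ∈ R) (hx : x ∈ R) (he : e ∈ R) :
    RP R (P5_C a x e) := by
  refine RP.all hR (P := fun (s : List ℕ) (q : List ℕ × ℕ) =>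
    (2 * (q.1.length + 1) ≤ s.length ∧ 2 * Encodable.encode q.1 + 1 < s.length ∧
    2 * Encodable.encode (q.1 ++ [q.2]) + 1 < s.length) →
    (∀ v, v <+: q.1 ++ [q.2] → P5_T a (jn x (fun i => P5_fn s (2 * i))) v) →
    e (Nat.pair (P5_fn s (2 * Encodable.encode (q.1 ++ [q.2]) + 1))
      (P5_fn s (2 * Encodable.encode q.1 + 1))) = 1) ?_
  have hs : Primrec fun y : List ℕ × (List ℕ × ℕ) => y.1 := Primrec.fst
  have hu : Primrec fun y : List ℕ × (List ℕ × ℕ) => y.2.1 := Primrec.fst.comp Primrec.snd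
  have hn : Primrec fun y : List ℕ × (List ℕ × ℕ) => y.2.2 := Primrec.snd.comp Primrec.snd
  have hun : Primrec fun y : List ℕ × (List ℕ × ℕ) => y.2.1 ++ [y.2.2] :=
    Primrec.list_append.comp hu (Primrec.list_cons.comp hn (Primrec.const []))
  have hl : Primrec fun y : List ℕ × (List ℕ × ℕ) => y.1.length := Primrec.list_length.comp hs
  have p1 : Primrec fun y : List ℕ × (List ℕ × ℕ) => 2 * Encodable.encode y.2.1 + 1 :=
    Primrec.nat_add.comp (Primrec.nat_mul.comp (Primrec.const 2) (Primrec.encode.comp hu))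
      (Primrec.const 1)
  have p2 : Primrec fun y : List ℕ × (List ℕ × ℕ) => 2 * Encodable.encode (y.2.1 ++ [y.2.2]) + 1 :=
    Primrec.nat_add.comp (Primrec.nat_mul.comp (Primrec.const 2) (Primrec.encode.comp hun))
      (Primrec.const 1)
  refine P5_imp hR (RP.and hR ?_ (RP.and hR ?_ ?_)) (P5_imp hR ?_ ?_)
  · refine P5_le hR (RF.of_primrec hR ?_) (RF.of_primrec hR hl)
    exact Primrec.nat_mul.comp (Primrec.const 2)
      (Primrec.nat_add.comp (Primrec.list_length.comp hu) (Primrec.const 1))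
  · exact RP.lt hR (RF.of_primrec hR p1) (RF.of_primrec hR hl)
  · exact RP.lt hR (RF.of_primrec hR p2) (RF.of_primrec hR hl)
  · refine RP.all hR (P := fun (y : List ℕ × (List ℕ × ℕ)) (v : List ℕ) =>
      v <+: y.2.1 ++ [y.2.2] → P5_T a (jn x (fun i => P5_fn y.1 (2 * i))) v) ?_
    refine P5_imp hR (P5_pfx hR (RF.of_primrec hR Primrec.snd)
      (RF.of_primrec hR (hun.comp Primrec.fst))) ?_
    refine P5_T_RP hR ha (z := fun (y : (List ℕ × (List ℕ × ℕ)) × List ℕ) =>
      jn x (fun i => P5_fn y.1.1 (2 * i))) ?_ (RF.of_primrec hR Primrec.snd)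
    refine P5_ini_jn hR (f := fun _ => x)
      (g := fun (y : (List ℕ × (List ℕ × ℕ)) × List ℕ) (i : ℕ) => P5_fn y.1.1 (2 * i)) ?_ ?_
    · exact RF.comp hR (RF.ini hR hx) (RF.of_primrec hR Primrec.snd)
    · exact P5_ini_ev hR (f := fun (y : (List ℕ × (List ℕ × ℕ)) × List ℕ) => y.1.1)
        (RF.of_primrec hR (Primrec.fst.comp Primrec.fst))
  · refine RP.eq hR ?_ (RF.const hR 1)
    have h1 : Primrec fun y : List ℕ × (List ℕ × ℕ) =>
        Nat.pair (P5_fn y.1 (2 * Encodable.encode (y.2.1 ++ [y.2.2]) + 1))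
          (P5_fn y.1 (2 * Encodable.encode y.2.1 + 1)) :=
      Primrec₂.natPair.comp ((Primrec.list_getD 0).comp hs p2) ((Primrec.list_getD 0).comp hs p1)
    exact RF.comp hR ((RF.mem hR).2 he) (RF.of_primrec hR h1)

end calculus

variable {M : Type u} [SetStr M] [ZF M] [Std M] {W : Type v} [LinearOrder W] [Cd M W]

/-- every element of `W` is coded by a real in `R` -/
theorem RU.code_ord [Om1 M W] {R : Set (ℕ → ℕ)} (hR : RU M W R) (α : W) : ∃ e ∈ R, ∃ g : W → ℕ,
    Set.InjOn g {β | β < α} ∧ ∀ i j, e (Nat.pair i j) = 1 ↔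
      ∃ β γ, β < γ ∧ γ < α ∧ g β = i ∧ g γ = j := by
  classical
  obtain ⟨f, hf, hinj⟩ := Om1.below (M := M) α
  have hlt : In M (fun y : W × W => y.1 < y.2) := Om1.lt_in
  have hP : In M (fun n : ℕ => ∃ β γ : W, β < γ ∧ γ < α ∧ f β = n.unpair.1 ∧
      f γ = n.unpair.2) := by
    refine In.ex (P := fun (n : ℕ) (β : W) => ∃ γ : W, β < γ ∧ γ < α ∧ f β = n.unpair.1 ∧
      f γ = n.unpair.2) ?_
    refine In.ex (P := fun (y : ℕ × W) (γ : W) => y.2 < γ ∧ γ < α ∧ f y.2 = y.1.unpair.1 ∧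
      f γ = y.1.unpair.2) ?_
    refine In.and ?_ (In.and ?_ (In.and ?_ ?_))
    · exact In.comp2 (P := fun a b : W => a < b) hlt (IF.comp IF.snd IF.fst) IF.snd
    · exact In.comp2 (P := fun a b : W => a < b) hlt IF.snd (IF.const α)
    · exact In.eq (IF.comp hf (IF.comp IF.snd IF.fst))
        (IF.comp IF.fst (IF.comp IF.unpair (IF.comp IF.fst IF.fst)))
    · exact In.eq (IF.comp hf IF.snd)
        (IF.comp IF.snd (IF.comp IF.unpair (IF.comp IF.fst IF.fst)))
  refine ⟨_, hR.ground _ (IF.ite hP (IF.const 1) (IF.const 0)), f, hinj, fun i j => ?_⟩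
  simp only [Nat.unpair_pair]
  by_cases h : ∃ β γ : W, β < γ ∧ γ < α ∧ f β = i ∧ f γ = j
  · rw [if_pos h]
    exact iff_of_true rfl h
  · rw [if_neg h]
    exact iff_of_false zero_ne_one h

theorem P5_no_desc (M : Type u) [SetStr M] [ZF M] [Std M] [Cd M W] [Om1 M W] (f : ℕ → W)
    (h : ∀ n, f (n + 1) < f n) : False := by
  obtain ⟨m, ⟨n, rfl⟩, hm⟩ := (Om1.wf (M := M) (W := W)).has_min (Set.range f) ⟨f 0, 0, rfl⟩
  exact hm (f (n + 1)) ⟨n + 1, rfl⟩ (h n)

/-- A tree in `R` with a branch has a branch in `R`. -/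
theorem P5_branch [Om1 M W] {R : Set (ℕ → ℕ)} (hR : RU M W R) {c : ℕ → ℕ} (hc : c ∈ R)
    {w : ℕ → ℕ} (hw : ∀ k, c (cd w k) = 0) : ∃ y ∈ R, ∀ k, c (cd y k) = 0 := by
  rcases hR.del c hc with h | ⟨α, ρ, -, h2⟩
  · exact h
  · exfalso
    refine P5_no_desc M (fun k => ρ (ini w k)) fun k => ?_
    show ρ (ini w (k + 1)) < ρ (ini w k)
    rw [P5_ini_succ]
    refine h2 _ _ fun v hv => ?_
    rw [← P5_ini_succ] at hv
    rw [P5_ini_pfx hv]
    exact hw _

/-- absoluteness of Pi-1-2 statements -/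
theorem U2.abs [Om1 M W] {R R' : Set (ℕ → ℕ)} (hR : RU M W R) (hR' : RU M W R') (h : R ⊆ R')
    {x a : ℕ → ℕ} (hx : x ∈ R) (ha : a ∈ R) : U2 R x a ↔ U2 R' x a := by
  constructor
  · intro hU y₂ hy₂
    -- the tree of the `y₃`
    have hb : RP R' (fun v => P5_T a (jn x y₂) v) :=
      P5_T_RP hR'.rc (h ha) (z := fun _ => jn x y₂)
        (RF.comp hR'.rc (RF.ini hR'.rc (P5_jn_mem hR'.rc (h hx) hy₂))
          (RF.of_primrec hR'.rc Primrec.snd)) (RF.of_primrec hR'.rc Primrec.id)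
    obtain ⟨b, hbR, hb'⟩ := P5_code hR'.rc hb
    rcases hR'.del b hbR with ⟨y, hy, hyb⟩ | ⟨α, ρ, hρ1, hρ2⟩
    · exact ⟨y, hy, P5_T_branch.1 fun m => (hb' _).1 (hyb m)⟩
    · exfalso
      obtain ⟨e, heR, g, hg, he⟩ := hR.code_ord α
      obtain ⟨c, hcR, hc⟩ := P5_code hR.rc (P5_C_RP hR.rc ha hx heR)
      -- the true branch
      let r : ℕ → ℕ := fun m => g (ρ ((Encodable.decode (α := List ℕ) m).getD []))
      have hr : ∀ u : List ℕ, r (Encodable.encode u) = g (ρ u) := fun u => by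
        show g (ρ ((Encodable.decode (α := List ℕ) (Encodable.encode u)).getD [])) = _
        rw [Encodable.encodek]
        rfl
      have hw : ∀ k, c (cd (jn y₂ r) k) = 0 := by
        intro k
        rw [cd_eq, hc]
        rintro ⟨u, n⟩ ⟨h1, h2, h3⟩ h4
        rw [P5_ini_length] at h1 h2 h3
        simp only at h1 h2 h3 h4 ⊢
        rw [P5_fn_ini h3, P5_fn_ini h2, P5_rg_jn, P5_rg_jn, hr, hr, he]
        refine ⟨_, _, hρ2 u n fun v hv => ?_, hρ1 _, rfl, rfl⟩
        rw [hb']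
        have hl : v.length ≤ u.length + 1 := by
          have := hv.length_le
          simpa using this
        refine (P5_T_congr fun i hi => ?_).1 (h4 v hv)
        show (if i % 2 = 0 then x (i / 2) else P5_fn (ini (jn y₂ r) k) (2 * (i / 2))) =
          if i % 2 = 0 then x (i / 2) else y₂ (i / 2)
        rw [P5_fn_ini (by omega), P5_lf_jn]
      obtain ⟨w, hwR, hw'⟩ := P5_branch hR hcR hw
      obtain ⟨y₃, hy₃, hU'⟩ := hU _ (P5_lf_mem hR.rc hwR)
      have hT := P5_T_branch.2 hU'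
      have key : ∀ m, e (Nat.pair (w (2 * Encodable.encode (ini y₃ (m + 1)) + 1))
          (w (2 * Encodable.encode (ini y₃ m) + 1))) = 1 := by
        intro m
        let K := 2 * (m + 1) + (2 * Encodable.encode (ini y₃ (m + 1)) + 1) +
          (2 * Encodable.encode (ini y₃ m) + 1) + 1
        have h1 := (hc (ini w K)).1 (hw' K) (ini y₃ m, y₃ m)
        rw [P5_ini_length] at h1
        simp only [P5_ini_length, ← P5_ini_succ] at h1
        have k1 : 2 * (m + 1) ≤ K := by omega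
        have k2 : 2 * Encodable.encode (ini y₃ m) + 1 < K := by omega
        have k3 : 2 * Encodable.encode (ini y₃ (m + 1)) + 1 < K := by omega
        have h2 := h1 ⟨k1, k2, k3⟩ (by
          intro v hv
          have hl : v.length ≤ m + 1 := by
            have := hv.length_le
            rwa [P5_ini_length] at this
          have h5 : P5_T a (jn x fun i => w (2 * i)) v := by
            rw [P5_ini_pfx hv]
            exact hT _
          refine (P5_T_congr fun i hi => ?_).2 h5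
          show (if i % 2 = 0 then x (i / 2) else P5_fn (ini w K) (2 * (i / 2))) =
            if i % 2 = 0 then x (i / 2) else w (2 * (i / 2))
          rw [P5_fn_ini (by omega)])
        rw [P5_fn_ini k2, P5_fn_ini k3] at h2
        exact h2
      choose β γ h1 h2 h3 h4 using fun m => (he _ _).1 (key m)
      refine P5_no_desc M γ fun m => ?_
      have : γ (m + 1) = β m := by
        refine hg (h2 (m + 1)) ((h1 m).trans (h2 m)) ?_
        rw [h4, h3]
      rw [this]
      exact h1 m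
  · intro hU y₂ hy₂
    obtain ⟨y₃, -, hy⟩ := hU y₂ (h hy₂)
    have hb : RP R (fun v => P5_T a (jn x y₂) v) :=
      P5_T_RP hR.rc ha (z := fun _ => jn x y₂)
        (RF.comp hR.rc (RF.ini hR.rc (P5_jn_mem hR.rc hx hy₂))
          (RF.of_primrec hR.rc Primrec.snd)) (RF.of_primrec hR.rc Primrec.id)
    obtain ⟨b, hbR, hb'⟩ := P5_code hR.rc hb
    obtain ⟨y, hyR, hyb⟩ := P5_branch hR hbR (w := y₃) fun k => (hb' _).2 (P5_T_branch.2 hy k)
    exact ⟨y, hyR, P5_T_branch.1 fun m => (hb' _).1 (hyb m)⟩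

theorem U3.up [Om1 M W] {R R' : Set (ℕ → ℕ)} (hR : RU M W R) (hR' : RU M W R') (h : R ⊆ R')
    {x a : ℕ → ℕ} (hx : x ∈ R) (ha : a ∈ R) (hU : U3 R x a) : U3 R' x a := by
  obtain ⟨y, hy, hU⟩ := U3_iff.1 hU
  exact U3_iff.2 ⟨y, h hy, (U2.abs hR hR' h (P5_jn_mem hR.rc hx hy) ha).1 hU⟩

/-- Sigma-1-3 facts in a directed union are already true in a member. -/
theorem U3.down [Om1 M W] {R : Set (ℕ → ℕ)} (hR : RU M W R) {x a : ℕ → ℕ} (hU : U3 R x a) :
    ∃ y ∈ R, ∀ R' : Set (ℕ → ℕ), RU M W R' → R' ⊆ R → x ∈ R' → a ∈ R' → y ∈ R' → U3 R' x a := by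
  obtain ⟨y, hy, hU⟩ := U3_iff.1 hU
  refine ⟨y, hy, fun R' hR' h hx ha hy' => U3_iff.2 ⟨y, hy', ?_⟩⟩
  exact (U2.abs hR' hR h (P5_jn_mem hR'.rc hx hy') ha).2 hU

end Pool.Agent.H.MP_a163f2_lc
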