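import Pool.Agent.H.MP_a163f2_lc.P.P3

/-!
# Block P, part 6: reduction from a good wellorder
-/

set_option autoImplicit false

namespace Pool.Agent.H.MP_a163f2_lc

universe u

/-- the real `w` has the real `q` on its list, with number `j` -/
def Lst (w : ℕ → ℕ) (j : ℕ) (q : ℕ → ℕ) : Prop :=
  ∀ n, w (2 * Encodable.encode [j, n, q n] + 1) = 1

/-- number `j` is on the list of `w` -/
def LstDef (w : ℕ → ℕ) (j : ℕ) : Prop := ∃ k, w (2 * Encodable.encode [j, 0, k] + 1) = 1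

theorem P6_lf_jn (a b : ℕ → ℕ) : lf (jn a b) = a := by
  funext n
  unfold lf jn
  rw [if_pos (by omega)]
  congr 1
  omega

theorem P6_rg_jn (a b : ℕ → ℕ) : rg (jn a b) = b := by
  funext n
  unfold rg jn
  rw [if_neg (by omega)]
  congr 1
  omega

theorem P6_jn_lf_rg (z : ℕ → ℕ) : jn (lf z) (rg z) = z := by
  funext n
  unfold lf rg jn
  by_cases h : n % 2 = 0
  · rw [if_pos h]
    have h1 : 2 * (n / 2) = n := by omega
    show z (2 * (n / 2)) = z n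
    rw [h1]
  · rw [if_neg h]
    have h1 : 2 * (n / 2) + 1 = n := by omega
    show z (2 * (n / 2) + 1) = z n
    rw [h1]

theorem P6_app {R : Set (ℕ → ℕ)} (hR : RC R) {α : Type u} [Primcodable α]
    {F : (ℕ → ℕ) → ℕ → ℕ} (hF : CF R F) {ψ : (ℕ → ℕ) → α → ℕ} (hψ : CF R ψ) :
    CF R (fun x a => F x (ψ x a)) := by
  have h1 : CF R (fun x (p : α × ℕ) => F x p.2) := CF.par hR hF (RF.of_primrec hR Primrec.snd)
  exact CF.sub hR h1 hψ

theorem P6_val {R : Set (ℕ → ℕ)} (hR : RC R) {α : Type u} [Primcodable α]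
    {F : (ℕ → ℕ) → ℕ → ℕ} (hF : CF R F) (c : ℕ) : CF R (fun x (_ : α) => F x c) :=
  P6_app hR hF (CF.num hR (RF.const hR c))

theorem P6_prim : Primrec (fun p : ℕ × ℕ =>
    2 * Encodable.encode [p.1, p.2.unpair.1, p.2.unpair.2] + 1) := by
  have h1 : Primrec (fun p : ℕ × ℕ => p.2.unpair.1) :=
    Primrec.fst.comp (Primrec.unpair.comp Primrec.snd)
  have h2 : Primrec (fun p : ℕ × ℕ => p.2.unpair.2) :=
    Primrec.snd.comp (Primrec.unpair.comp Primrec.snd)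
  have h3 : Primrec (fun p : ℕ × ℕ => [p.1, p.2.unpair.1, p.2.unpair.2]) :=
    Primrec.list_cons.comp Primrec.fst
      (Primrec.list_cons.comp h1 (Primrec.list_cons.comp h2 (Primrec.const [])))
  have h4 : Primrec (fun p : ℕ × ℕ =>
      Encodable.encode [p.1, p.2.unpair.1, p.2.unpair.2]) := Primrec.encode.comp h3
  exact Primrec.succ.comp (Primrec.nat_mul.comp (Primrec.const 2) h4)

theorem P6_num {R : Set (ℕ → ℕ)} (hR : RC R) {α : Type u} [Primcodable α]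
    {φ ψ χ : (ℕ → ℕ) → α → ℕ} (hφ : CF R φ) (hψ : CF R ψ) (hχ : CF R χ) :
    CF R (fun x a => 2 * Encodable.encode [φ x a, ψ x a, χ x a] + 1) := by
  have h1 : CF R (fun x a => Nat.pair (ψ x a) (χ x a)) :=
    CF.comp2 hR (g := fun p => Nat.pair p.1 p.2)
      (RF.of_primrec hR (Primrec₂.natPair.comp Primrec.fst Primrec.snd)) hψ hχ
  have h2 := CF.comp2 hR (RF.of_primrec hR P6_prim) hφ h1
  simp only [Nat.unpair_pair] at h2
  exact h2

theorem P6_prim_eq (c : ℕ) : Primrec (fun t : ℕ => if t = c then 0 else 1) :=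
  Primrec.ite (Primrec.eq.comp Primrec.id (Primrec.const c)) (Primrec.const 0) (Primrec.const 1)

theorem P6_eq {R : Set (ℕ → ℕ)} (hR : RC R) {φ : (ℕ → ℕ) → Unit → ℕ} (hφ : CF R φ) (c k : ℕ) :
    SigP R k (fun x => φ x () = c) := by
  have h1 : CF R (fun x a => (fun t : ℕ => if t = c then 0 else 1) (φ x a)) :=
    CF.comp1 hR (RF.of_primrec hR (P6_prim_eq c)) hφ
  refine (SigP.clopen hR h1 k).congr fun x _ => ?_
  by_cases h : φ x () = c
  · simp [h]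
  · simp [h]

theorem P6_ne {R : Set (ℕ → ℕ)} (hR : RC R) {φ : (ℕ → ℕ) → Unit → ℕ} (hφ : CF R φ) (c k : ℕ) :
    SigP R k (fun x => φ x () ≠ c) := by
  have h1 : CF R (fun x a => (fun t : ℕ => if t = c then 0 else 1) (φ x a)) :=
    CF.comp1 hR (RF.of_primrec hR (P6_prim_eq c)) hφ
  refine (SigP.clopen' hR h1 k).congr fun x _ => ?_
  by_cases h : φ x () = c
  · simp [h]
  · simp [h]

/-- the condition on the list -/
def P6_T (R : Set (ℕ → ℕ)) (B : Set (ℕ → ℕ)) (x w : ℕ → ℕ) : Prop :=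
  ∀ j, LstDef w j → ∃ q ∈ R, Lst w j q ∧ jn x q ∈ B

theorem P6_memS {R : Set (ℕ → ℕ)} {m : ℕ} {B : Set (ℕ → ℕ)} (hB : Sig R m B) :
    SigP R m (fun z => z ∈ B) := (SigP.iff_Sig (Sig.subset hB)).1 hB

theorem P6_notDef {R : Set (ℕ → ℕ)} (hR : RA R) (m : ℕ) :
    SigP R (m + 1) (fun z => ¬ LstDef (rg (tl z)) (z 0)) := by
  have hC := hR.toRC
  have hid : CF R (fun (x : ℕ → ℕ) (n : ℕ) => x n) := CF.id' hC
  have h1 : SigP R (m + 1) (fun z => ∀ k, rg (tl z) (2 * Encodable.encode [z 0, 0, k] + 1) ≠ 1) := by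
    refine SigP.allN hR
      (P := fun k z => rg (tl z) (2 * Encodable.encode [z 0, 0, k] + 1) ≠ 1) ?_
    have hF : CF R (fun x n => rg (tl (tl x)) n) := CF.rg hC (CF.tl hC (CF.tl hC hid))
    have h0 : CF R (fun x (_ : Unit) => tl x 0) := P6_val hC (CF.tl hC hid) 0
    have h2 : CF R (fun x (_ : Unit) => x 0) := P6_val hC hid 0
    have h3 : CF R (fun (_ : ℕ → ℕ) (_ : Unit) => 0) := CF.num hC (RF.const hC 0)
    exact P6_ne hC (P6_app hC hF (P6_num hC h0 h3 h2)) 1 (m + 1)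
  refine h1.congr fun z _ => ?_
  unfold LstDef
  push Not
  exact Iff.rfl

theorem P6_Lst {R : Set (ℕ → ℕ)} (hR : RA R) (m : ℕ) :
    SigP R (m + 1) (fun y => Lst (rg (tl (lf y))) (lf y 0) (rg y)) := by
  have hC := hR.toRC
  have hid : CF R (fun (x : ℕ → ℕ) (n : ℕ) => x n) := CF.id' hC
  have h1 : SigP R (m + 1) (fun y => ∀ k,
      rg (tl (lf y)) (2 * Encodable.encode [lf y 0, k, rg y k] + 1) = 1) := by
    refine SigP.allN hR
      (P := fun k y => rg (tl (lf y)) (2 * Encodable.encode [lf y 0, k, rg y k] + 1) = 1) ?_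
    have hF : CF R (fun x n => rg (tl (lf (tl x))) n) :=
      CF.rg hC (CF.tl hC (CF.lf hC (CF.tl hC hid)))
    have h0 : CF R (fun x (_ : Unit) => lf (tl x) 0) := P6_val hC (CF.lf hC (CF.tl hC hid)) 0
    have h2 : CF R (fun x (_ : Unit) => x 0) := P6_val hC hid 0
    have h3 : CF R (fun x (_ : Unit) => rg (tl x) (x 0)) :=
      P6_app hC (CF.rg hC (CF.tl hC hid)) h2
    exact P6_eq hC (P6_app hC hF (P6_num hC h0 h2 h3)) 1 (m + 1)
  exact h1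

theorem P6_TSig {R : Set (ℕ → ℕ)} (hR : RA R) {m : ℕ} {B : Set (ℕ → ℕ)} (hB : Sig R m B) :
    SigP R (m + 1) (fun y => P6_T R B (lf (lf y)) (rg y)) := by
  have hC := hR.toRC
  have hid : CF R (fun (x : ℕ → ℕ) (n : ℕ) => x n) := CF.id' hC
  refine SigP.allN hR (P := fun j y => LstDef (rg y) j →
    ∃ q ∈ R, Lst (rg y) j q ∧ jn (lf (lf y)) q ∈ B) ?_
  have h1 := P6_notDef hR m
  have h2 : SigP R (m + 1) (fun z => ∃ q ∈ R, Lst (rg (tl z)) (z 0) q ∧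
      jn (lf (lf (tl z))) q ∈ B) := by
    refine SigP.exR hC (P := fun z q => Lst (rg (tl z)) (z 0) q ∧ jn (lf (lf (tl z))) q ∈ B) ?_
    have hF : CF R (fun y n => jn (lf (lf (tl (lf y)))) (rg y) n) :=
      CF.jn hC (CF.lf hC (CF.lf hC (CF.tl hC (CF.lf hC hid)))) (CF.rg hC hid)
    have h3 : SigP R m (fun y => jn (lf (lf (tl (lf y)))) (rg y) ∈ B) :=
      SigP.subst hC (P6_memS hB) hF
    exact SigP.and hC (P6_Lst hR m) (SigP.succ hC h3)
  refine (SigP.or hC h1 h2).congr fun z _ => ?_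
  exact imp_iff_not_or

/-- A good wellorder with Sigma-1-4 initial segments gives reduction for all classes from
Sigma-1-4 on. -/
theorem reduction_of_wo {R : Set (ℕ → ℕ)} (hR : RA R) {n : ℕ} (hn : 4 ≤ n)
    {O : Type u} [LinearOrder O] (wf : WellFounded ((· < ·) : O → O → Prop)) (rk : (ℕ → ℕ) → O)
    (hrk : Set.InjOn rk R) (Gr : (ℕ → ℕ) → (ℕ → ℕ) → Prop)
    (hGr : SigP R 4 (fun z => Gr (lf z) (rg z))) (hex : ∀ q ∈ R, ∃ w ∈ R, Gr q w)
    (hlst : ∀ q ∈ R, ∀ w ∈ R, Gr q w → ∀ q' ∈ R, rk q' < rk q ↔ ∃ j, Lst w j q')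
    (hdef : ∀ q ∈ R, ∀ w ∈ R, Gr q w → ∀ j, LstDef w j →
      ∃ q' ∈ R, Lst w j q' ∧ ∀ q'' ∈ R, Lst w j q'' → q'' = q') :
    Reduction (Sig R n) := by
  obtain ⟨m, rfl⟩ : ∃ m, n = m + 1 := ⟨n - 1, by omega⟩
  have hC := hR.toRC
  have hid : CF R (fun (x : ℕ → ℕ) (n : ℕ) => x n) := CF.id' hC
  rintro A B ⟨B1, hB1, rfl⟩ ⟨B2, hB2, rfl⟩
  -- the classes
  have cGr : SigP R (m + 1) (fun y => Gr (rg (lf y)) (rg y)) := by
    have hF : CF R (fun y n => jn (rg (lf y)) (rg y) n) :=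
      CF.jn hC (CF.rg hC (CF.lf hC hid)) (CF.rg hC hid)
    have h1 := SigP.mono hC (SigP.subst hC hGr hF) hn
    refine h1.congr fun y _ => ?_
    show Gr (rg (lf y)) (rg y) ↔ Gr (lf (jn (rg (lf y)) (rg y))) (rg (jn (rg (lf y)) (rg y)))
    rw [P6_lf_jn, P6_rg_jn]
  have cIn : ∀ {D : Set (ℕ → ℕ)}, Sig R m D →
      SigP R (m + 1) (fun y => jn (lf (lf y)) (rg (lf y)) ∈ D) := by
    intro D hD
    have h1 : SigP R m (fun y => lf y ∈ D) := SigP.subst hC (P6_memS hD) (CF.lf hC hid)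
    refine (SigP.succ hC h1).congr fun y _ => ?_
    rw [P6_jn_lf_rg]
  have cOut : ∀ {D : Set (ℕ → ℕ)}, Sig R m D →
      SigP R (m + 1) (fun y => jn (lf (lf y)) (rg (lf y)) ∉ D) := by
    intro D hD
    have h1 : SigP R m (fun y => lf y ∈ D) := SigP.subst hC (P6_memS hD) (CF.lf hC hid)
    refine (SigP.of_pi hC (PiP.of_not h1)).congr fun y _ => ?_
    rw [P6_jn_lf_rg]
  have cA : SigP R (m + 1) (fun x => ∃ v ∈ R, ∃ w ∈ R, Gr v w ∧ jn x v ∉ B1 ∧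
      P6_T R B2 x w) := by
    refine SigP.exR hC (P := fun x v => ∃ w ∈ R, Gr v w ∧ jn x v ∉ B1 ∧ P6_T R B2 x w) ?_
    refine SigP.exR hC (P := fun z w => Gr (rg z) w ∧ jn (lf z) (rg z) ∉ B1 ∧
      P6_T R B2 (lf z) w) ?_
    exact SigP.and hC cGr (SigP.and hC (cOut hB1) (P6_TSig hR hB2))
  have cB : SigP R (m + 1) (fun x => ∃ v ∈ R, ∃ w ∈ R, Gr v w ∧ jn x v ∉ B2 ∧ jn x v ∈ B1 ∧
      P6_T R B1 x w) := by
    refine SigP.exR hC (P := fun x v => ∃ w ∈ R, Gr v w ∧ jn x v ∉ B2 ∧ jn x v ∈ B1 ∧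
      P6_T R B1 x w) ?_
    refine SigP.exR hC (P := fun z w => Gr (rg z) w ∧ jn (lf z) (rg z) ∉ B2 ∧
      jn (lf z) (rg z) ∈ B1 ∧ P6_T R B1 (lf z) w) ?_
    exact SigP.and hC cGr (SigP.and hC (cOut hB2) (SigP.and hC (cIn hB1) (P6_TSig hR hB1)))
  -- a member of the list
  have key : ∀ q ∈ R, ∀ w ∈ R, Gr q w → ∀ (x : ℕ → ℕ) (D : Set (ℕ → ℕ)), P6_T R D x w →
      ∀ q' ∈ R, rk q' < rk q → jn x q' ∈ D := by
    intro q hq w hw hG x D hT q' hq' hlt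
    obtain ⟨j, hj⟩ := (hlst q hq w hw hG q' hq').1 hlt
    have hd : LstDef w j := ⟨q' 0, hj 0⟩
    obtain ⟨q₁, hq₁, hl₁, hm₁⟩ := hT j hd
    obtain ⟨q₀, -, -, hu⟩ := hdef q hq w hw hG j hd
    rw [hu q' hq' hj, ← hu q₁ hq₁ hl₁]
    exact hm₁
  have key2 : ∀ q ∈ R, ∀ w ∈ R, Gr q w → ∀ (x : ℕ → ℕ) (D : Set (ℕ → ℕ)),
      (∀ q' ∈ R, rk q' < rk q → jn x q' ∈ D) → P6_T R D x w := by
    intro q hq w hw hG x D hD j hd
    obtain ⟨q₀, hq₀, hl, -⟩ := hdef q hq w hw hG j hd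
    exact ⟨q₀, hq₀, hl, hD q₀ hq₀ ((hlst q hq w hw hG q₀ hq₀).2 ⟨j, hl⟩)⟩
  refine ⟨_, _, cA, cB, ?_, ?_, ?_, ?_⟩
  · rintro x ⟨hx, v, hv, w, -, -, h, -⟩
    exact ⟨hx, v, hv, h⟩
  · rintro x ⟨hx, v, hv, w, -, -, h, -⟩
    exact ⟨hx, v, hv, h⟩
  · rw [Set.disjoint_left]
    rintro x ⟨hx, v, hv, w, hw, hG, h1, hT⟩ ⟨-, v', hv', w', hw', hG', h2, h3, hT'⟩
    rcases lt_trichotomy (rk v) (rk v') with h | h | h
    · exact h1 (key v' hv' w' hw' hG' x B1 hT' v hv h)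
    · have h4 := hrk hv hv' h
      rw [h4] at h1
      exact h1 h3
    · exact h2 (key v hv w hw hG x B2 hT v' hv' h)
  · ext x
    constructor
    · rintro (⟨hx, v, hv, w, -, -, h, -⟩ | ⟨hx, v, hv, w, -, -, h, -⟩)
      · exact Or.inl ⟨hx, v, hv, h⟩
      · exact Or.inr ⟨hx, v, hv, h⟩
    · intro h
      have hx : x ∈ R := by
        rcases h with h | h
        · exact h.1
        · exact h.1
      have hne : (rk '' {v | v ∈ R ∧ (jn x v ∉ B1 ∨ jn x v ∉ B2)}).Nonempty := by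
        rcases h with ⟨-, v, hv, h⟩ | ⟨-, v, hv, h⟩
        · exact ⟨_, v, ⟨hv, Or.inl h⟩, rfl⟩
        · exact ⟨_, v, ⟨hv, Or.inr h⟩, rfl⟩
      obtain ⟨_, ⟨v, ⟨hv, hw⟩, rfl⟩, hmin⟩ := wf.has_min _ hne
      obtain ⟨w, hwR, hG⟩ := hex v hv
      have hlow : ∀ q' ∈ R, rk q' < rk v → jn x q' ∈ B1 ∧ jn x q' ∈ B2 := by
        intro q' hq' hlt
        by_contra hcon
        have hcon' : jn x q' ∉ B1 ∨ jn x q' ∉ B2 := by
          by_contra h'
          push Not at h'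
          exact hcon h'
        exact hmin _ ⟨q', ⟨hq', hcon'⟩, rfl⟩ hlt
      by_cases hA : jn x v ∈ B1
      · right
        refine ⟨hx, v, hv, w, hwR, hG, ?_, hA,
          key2 v hv w hwR hG x B1 fun q' hq' hlt => (hlow q' hq' hlt).1⟩
        rcases hw with h | h
        · exact absurd hA h
        · exact h
      · left
        exact ⟨hx, v, hv, w, hwR, hG, hA,
          key2 v hv w hwR hG x B2 fun q' hq' hlt => (hlow q' hq' hlt).2⟩

end Pool.Agent.H.MP_a163f2_lc
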