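import Pool.Agent.H.MP_a163f2_lc.P.P3c

/-!
# Block P, part 3: closure properties of the projective classes over `R`
-/

set_option autoImplicit false

namespace Pool.Agent.H.MP_a163f2_lc

universe u

variable {R : Set (ℕ → ℕ)} {k n : ℕ} {P Q : (ℕ → ℕ) → Prop}

theorem P3_jn_mem (hR : RC R) {x y : ℕ → ℕ} (hx : x ∈ R) (hy : y ∈ R) : jn x y ∈ R := by
  classical
  have h1 : RP R (fun n : ℕ => n % 2 = 0) :=
    RP.of_primrec hR (Primrec.eq.comp (Primrec.nat_mod.comp Primrec.id (Primrec.const 2))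
      (Primrec.const 0))
  have h2 : RF R (fun n : ℕ => n / 2) :=
    RF.of_primrec hR (Primrec.nat_div.comp Primrec.id (Primrec.const 2))
  have h3 := RF.ite hR h1 (RF.comp hR ((RF.mem hR).2 hx) h2) (RF.comp hR ((RF.mem hR).2 hy) h2)
  exact (RF.mem hR).1 h3

theorem P3_lf_jn (x y : ℕ → ℕ) : lf (jn x y) = x := by
  funext n
  have h1 : 2 * n % 2 = 0 := by omega
  have h2 : 2 * n / 2 = n := by omega
  simp [lf, jn, h2]

theorem P3_rg_jn (x y : ℕ → ℕ) : rg (jn x y) = y := by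
  funext n
  have h1 : (2 * n + 1) % 2 ≠ 0 := by omega
  have h2 : (2 * n + 1) / 2 = n := by omega
  unfold rg jn
  rw [if_neg h1, h2]

theorem P3_ini_take (x : ℕ → ℕ) {m k : ℕ} (h : k ≤ m) : (ini x m).take k = ini x k := by
  unfold ini
  rw [← List.map_take, List.take_range, min_eq_left h]

theorem P3_ini_length (x : ℕ → ℕ) (m : ℕ) : (ini x m).length = m := by
  simp [ini]

/-- the code of an initial segment is a continuous functional -/
theorem P3_cd (hR : RC R) : CF R (fun x (k : ℕ) => cd x k) := by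
  classical
  refine ⟨fun p => if p.2 ≤ p.1.length then some (Encodable.encode (p.1.take p.2)) else none,
    RF.of_primrec hR ?_, ?_⟩
  · refine Primrec.ite (Primrec.nat_le.comp Primrec.snd (Primrec.list_length.comp Primrec.fst))
      (Primrec.option_some.comp (Primrec.encode.comp
        (Primrec.list_take.comp Primrec.snd Primrec.fst))) (Primrec.const none)
  · intro x _ k
    constructor
    · refine ⟨k, ?_⟩
      show (if k ≤ (ini x k).length then some (Encodable.encode ((ini x k).take k)) else none) = _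
      rw [P3_ini_length, if_pos le_rfl, P3_ini_take x le_rfl]
      rfl
    · intro m v hv
      change (if k ≤ (ini x m).length then some (Encodable.encode ((ini x m).take k))
        else none) = some v at hv
      rw [P3_ini_length] at hv
      by_cases h : k ≤ m
      · rw [if_pos h, P3_ini_take x h] at hv
        exact (Option.some.inj hv).symm
      · rw [if_neg h] at hv
        cases hv

/-- substitution of a number into a functional giving a real -/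
theorem P3_val (hR : RC R) {F : (ℕ → ℕ) → ℕ → ℕ} (hF : CF R F) {ψ : (ℕ → ℕ) → Unit → ℕ}
    (hψ : CF R ψ) : CF R (fun x a => F x (ψ x a)) := by
  have h1 : CF R (fun x (p : Unit × ℕ) => F x p.2) :=
    CF.par hR hF (RF.of_primrec hR Primrec.snd)
  exact CF.sub hR h1 hψ

/-- universal sets -/
theorem Sig.universal (hR : RC R) (k : ℕ) : ∃ V : (ℕ → ℕ) → Prop, SigP R k V ∧
    ∀ A, Sig R k A → ∃ a ∈ R, ∀ x ∈ R, x ∈ A ↔ V (jn a x) := by
  induction k with
  | zero =>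
    refine ⟨fun z => ∃ j, lf z (cd (rg z) j) ≠ 0, ?_, ?_⟩
    · refine SigP.exN hR (P := fun j z => lf z (cd (rg z) j) ≠ 0) ?_
      have h0 : CF R (fun (x : ℕ → ℕ) (_ : Unit) => x 0) :=
        CF.app hR (CF.num hR (RF.const hR 0))
      have ht := CF.tl hR (CF.id' hR)
      have h1 : CF R (fun x (k : ℕ) => cd (rg (tl x)) k) := CF.real hR (P3_cd hR) (CF.rg hR ht)
      have h2 := P3_val hR h1 h0
      have h3 := P3_val hR (CF.lf hR ht) h2
      exact SigP.clopen' hR h3 0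
    · rintro A ⟨a, ha, rfl⟩
      refine ⟨a, ha, fun x hx => ?_⟩
      simp only [P3_lf_jn, P3_rg_jn, Set.mem_ofPred_eq]
      exact ⟨fun h => h.2, fun h => ⟨hx, h⟩⟩
  | succ k ih =>
    obtain ⟨V, hV, hu⟩ := ih
    refine ⟨fun z => ∃ y ∈ R, ¬ V (jn (lf z) (jn (rg z) y)), ?_, ?_⟩
    · refine SigP.exR_pi hR (P := fun x y => ¬ V (jn (lf x) (jn (rg x) y))) ?_
      have hl := CF.lf hR (CF.id' hR)
      have hr := CF.rg hR (CF.id' hR)
      have hF := CF.jn hR (CF.lf hR hl) (CF.jn hR (CF.rg hR hl) hr)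
      exact PiP.subst hR (PiP.of_not hV) hF
    · rintro A ⟨B, hB, rfl⟩
      obtain ⟨a, ha, hu'⟩ := hu B hB
      refine ⟨a, ha, fun x hx => ?_⟩
      simp only [P3_lf_jn, P3_rg_jn, Set.mem_ofPred_eq]
      constructor
      · rintro ⟨-, y, hy, h⟩
        exact ⟨y, hy, fun h' => h ((hu' _ (P3_jn_mem hR hx hy)).2 h')⟩
      · rintro ⟨y, hy, h⟩
        exact ⟨hx, y, hy, fun h' => h ((hu' _ (P3_jn_mem hR hx hy)).1 h')⟩

/-- The class `Sig R 3` in terms of `U3`. -/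
theorem Sig.three0 (hR : RC R) {A : Set (ℕ → ℕ)} :
    Sig R 3 A ↔ ∃ a ∈ R, A = {x | x ∈ R ∧ U3 R x a} := by
  have key : ∀ a : ℕ → ℕ, ({x | x ∈ R ∧ ∃ y ∈ R, jn x y ∉ {x | x ∈ R ∧ ∃ y ∈ R, jn x y ∉
      {x | x ∈ R ∧ ∃ y ∈ R, jn x y ∉ {x | x ∈ R ∧ ∃ k, a (cd x k) ≠ 0}}}} : Set (ℕ → ℕ)) =
      {x | x ∈ R ∧ U3 R x a} := by
    intro a
    ext x
    simp only [Set.mem_ofPred_eq, U3]
    refine and_congr_right fun hx => exists_congr fun y₁ => and_congr_right fun h1 => ?_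
    have m1 := P3_jn_mem hR hx h1
    constructor
    · intro h y₂ h2
      have m2 := P3_jn_mem hR m1 h2
      by_contra hcon
      apply h
      refine ⟨m1, y₂, h2, ?_⟩
      rintro ⟨-, y₃, h3, h4⟩
      apply hcon
      refine ⟨y₃, h3, fun k => ?_⟩
      by_contra h5
      exact h4 ⟨P3_jn_mem hR m2 h3, k, h5⟩
    · rintro h ⟨-, y₂, h2, h3⟩
      obtain ⟨y₃, h4, h5⟩ := h y₂ h2
      apply h3
      refine ⟨P3_jn_mem hR m1 h2, y₃, h4, ?_⟩
      rintro ⟨-, k, h6⟩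
      exact h6 (h5 k)
  constructor
  · rintro ⟨_, ⟨_, ⟨_, ⟨a, ha, rfl⟩, rfl⟩, rfl⟩, rfl⟩
    exact ⟨a, ha, key a⟩
  · rintro ⟨a, ha, rfl⟩
    exact ⟨_, ⟨_, ⟨_, ⟨a, ha, rfl⟩, rfl⟩, rfl⟩, (key a).symm⟩

/-! ### Novikov -/

/-- Reduction for `Sig R k` (k ≥ 1) and for `PiR R k` cannot both hold. -/
theorem novikov (hR : RC R) (h1 : Reduction (Sig R (k + 1))) (h2 : Reduction (PiR R (k + 1))) :
    False := by
  obtain ⟨V, hV, hu⟩ := Sig.universal hR (k + 1)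
  have hid := CF.id' hR
  have s0 : Sig R (k + 1) {x | x ∈ R ∧ V (jn (lf x) x)} :=
    SigP.subst hR hV (CF.jn hR (CF.lf hR hid) hid)
  have s1 : Sig R (k + 1) {x | x ∈ R ∧ V (jn (rg x) x)} :=
    SigP.subst hR hV (CF.jn hR (CF.rg hR hid) hid)
  obtain ⟨U0, U1, t0, t1, u0, u1, hd, hun⟩ := h1 _ _ s0 s1
  have r0 : U0 ⊆ R := fun x hx => (u0 hx).1
  have r1 : U1 ⊆ R := fun x hx => (u1 hx).1
  have d0 : R \ (R \ U0) = U0 := Set.sdiff_sdiff_cancel_left r0
  have d1 : R \ (R \ U1) = U1 := Set.sdiff_sdiff_cancel_left r1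
  obtain ⟨A0, A1, p0, p1, q0, q1, hd', hun'⟩ := h2 (R \ U0) (R \ U1)
    ⟨Set.sdiff_subset, by rw [d0]; exact t0⟩ ⟨Set.sdiff_subset, by rw [d1]; exact t1⟩
  -- the members of `R` are in exactly one of the sets `A0`, `A1`
  have hcov : ∀ x ∈ R, x ∈ A0 ∨ x ∈ A1 := by
    intro x hx
    have h3 : x ∈ A0 ∪ A1 := by
      rw [hun']
      by_cases h4 : x ∈ U0
      · exact Or.inr ⟨hx, fun h5 => Set.disjoint_left.1 hd h4 h5⟩
      · exact Or.inl ⟨hx, h4⟩
    exact h3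
  obtain ⟨a1, ha1, hc1⟩ := hu _ p0.2
  obtain ⟨a0, ha0, hc0⟩ := hu _ p1.2
  have hx : jn a0 a1 ∈ R := P3_jn_mem hR ha0 ha1
  have e0 := hc0 _ hx
  have e1 := hc1 _ hx
  have hmem : jn a0 a1 ∈ ({x | x ∈ R ∧ V (jn (lf x) x)} ∪ {x | x ∈ R ∧ V (jn (rg x) x)} :
      Set (ℕ → ℕ)) ↔ jn a0 a1 ∈ U0 ∪ U1 := by rw [hun]
  simp only [Set.mem_union, Set.mem_ofPred_eq, P3_lf_jn, P3_rg_jn] at hmem
  rcases hcov _ hx with h3 | h3
  · -- in `A0`, so in `R \ A1`
    have h4 : jn a0 a1 ∉ A1 := fun h5 => Set.disjoint_left.1 hd' h3 h5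
    have h5 : V (jn a0 (jn a0 a1)) := e0.1 ⟨hx, h4⟩
    rcases hmem.1 (Or.inl ⟨hx, h5⟩) with h6 | h6
    · exact (q0 h3).2 h6
    · have h7 := (u1 h6).2
      rw [P3_rg_jn] at h7
      exact (e1.2 h7).2 h3
  · have h4 : jn a0 a1 ∉ A0 := fun h5 => Set.disjoint_left.1 hd' h5 h3
    have h5 : V (jn a1 (jn a0 a1)) := e1.1 ⟨hx, h4⟩
    rcases hmem.1 (Or.inr ⟨hx, h5⟩) with h6 | h6
    · have h7 := (u0 h6).2
      rw [P3_lf_jn] at h7
      exact (e0.2 h7).2 h3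
    · exact (q1 h3).2 h6

end Pool.Agent.H.MP_a163f2_lc
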