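import Pool.Agent.H.MP_a163f2_lc.Iface

/-!
# Block P: projective classes over a set of reals.  Definitions.

`RC R`: the set `R` of reals is closed under arithmetical operations.
`RF R f`: the function `f` between types coded by natural numbers is in `R`.
`RP R P`: the predicate `P` on such a type is in `R` (so `P` is arithmetical in members of `R`).
`CF R φ`: the functional `φ : reals → α → ℕ` is continuous with a modulus in `R`.
`SigP R k P`, `PiP R k P`: the set of the `x ∈ R` with `P x` is in the boldface class.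
-/

set_option autoImplicit false

namespace Pool.Agent.H.MP_a163f2_lc

universe u v

open Classical in
/-- closure under arithmetical operations -/
structure RC (R : Set (ℕ → ℕ)) : Prop where
  prim : ∀ f : ℕ → ℕ, Nat.Primrec f → f ∈ R
  comp : ∀ x ∈ R, ∀ y ∈ R, (fun n => x (y n)) ∈ R
  pair : ∀ x ∈ R, ∀ y ∈ R, (fun n => Nat.pair (x n) (y n)) ∈ R
  jump : ∀ x ∈ R, (fun n => if ∃ m, x (Nat.pair n m) = 0 then 1 else 0) ∈ R
  prec : ∀ x ∈ R, ∀ a : ℕ,
    (fun n => Nat.rec (motive := fun _ => ℕ) a (fun i k => x (Nat.pair i k)) n) ∈ R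
  mu : ∀ x ∈ R, ∀ y : ℕ → ℕ,
    (∀ n, x (Nat.pair n (y n)) = 0 ∧ ∀ m < y n, x (Nat.pair n m) ≠ 0) → y ∈ R

/-- `f` is in `R` -/
def RF (R : Set (ℕ → ℕ)) {α : Type u} {β : Type v} [Primcodable α] [Primcodable β] (f : α → β) :
    Prop := (fun n => Encodable.encode ((Encodable.decode (α := α) n).map f)) ∈ R

open Classical in
/-- `P` is in `R` -/
def RP (R : Set (ℕ → ℕ)) {α : Type u} [Primcodable α] (P : α → Prop) : Prop :=
  RF R (fun a => decide (P a))

/-- `φ` is a continuous functional with a modulus in `R`: the value `φ x a` is computed from an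
initial segment of `x`. -/
def CF (R : Set (ℕ → ℕ)) {α : Type u} [Primcodable α] (φ : (ℕ → ℕ) → α → ℕ) : Prop :=
  ∃ Θ : List ℕ × α → Option ℕ, RF R Θ ∧ ∀ x ∈ R, ∀ a,
    (∃ k, Θ (ini x k, a) = some (φ x a)) ∧ ∀ k v, Θ (ini x k, a) = some v → v = φ x a

/-- `P` defines a set in the class `Sig R k`. -/
def SigP (R : Set (ℕ → ℕ)) (k : ℕ) (P : (ℕ → ℕ) → Prop) : Prop := Sig R k {x | x ∈ R ∧ P x}

/-- `P` defines a set in the class `PiR R k`. -/
def PiP (R : Set (ℕ → ℕ)) (k : ℕ) (P : (ℕ → ℕ) → Prop) : Prop := SigP R k (fun x => ¬ P x)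

/-- even and odd part, first value and rest, sections -/
def lf (z : ℕ → ℕ) : ℕ → ℕ := fun n => z (2 * n)
def rg (z : ℕ → ℕ) : ℕ → ℕ := fun n => z (2 * n + 1)
def cn (i : ℕ) (x : ℕ → ℕ) : ℕ → ℕ := fun n => Nat.casesOn n i x
def tl (z : ℕ → ℕ) : ℕ → ℕ := fun n => z (n + 1)
def sec (y : ℕ → ℕ) (i : ℕ) : ℕ → ℕ := fun n => y (Nat.pair i n)

/-- closure and countable choice for projective relations -/
structure RA (R : Set (ℕ → ℕ)) : Prop extends RC R where
  ac : ∀ (k : ℕ) (P : (ℕ → ℕ) → Prop), PiP R k P → (∀ i : ℕ, ∃ y ∈ R, P (cn i y)) →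
    ∃ y ∈ R, ∀ i, P (cn i (sec y i))

end Pool.Agent.H.MP_a163f2_lc
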