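import Pool.Agent.H.MP_a163f2_lc.P.P1c

/-!
# Block P, part 1: the calculus of functions and predicates in `R`
-/

set_option autoImplicit false

namespace Pool.Agent.H.MP_a163f2_lc

universe u v w x

variable {R : Set (ℕ → ℕ)}
variable {α : Type u} {β : Type v} {γ : Type w} {δ : Type x}
variable [Primcodable α] [Primcodable β] [Primcodable γ] [Primcodable δ]

/-- Closure of `RU` sets. -/
theorem RU.rc {M : Type u} [MP_07d118_lc.SetStr M] [MP_07d118_lc.ZF M] [Std M] {W : Type v}
    [LinearOrder W] [Cd M W] (h : RU M W R) : RC R where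
  prim f hf := h.ground f (IF.of_primrec hf)
  comp := h.comp
  pair := h.pair
  jump := h.jump
  prec := h.prec
  mu := h.mu

end Pool.Agent.H.MP_a163f2_lc
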