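import Pool.Agent.H.MP_a163f2_lc.P.Defs

/-!
# Block P, part 1: the calculus of functions and predicates in `R`
-/

set_option autoImplicit false

namespace Pool.Agent.H.MP_a163f2_lc

universe u v w x

variable {R : Set (ℕ → ℕ)}
variable {α : Type u} {β : Type v} {γ : Type w} {δ : Type x}
variable [Primcodable α] [Primcodable β] [Primcodable γ] [Primcodable δ]

theorem RF.of_primrec (hR : RC R) {f : α → β} (hf : Primrec f) : RF R f := hR.prim _ hf

theorem P1a_pn (hR : RC R) {f : ℕ → ℕ} (hf : Primrec f) : f ∈ R :=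
  hR.prim f (Primrec.nat_iff.1 hf)

theorem RF.mem (hR : RC R) {f : ℕ → ℕ} : RF R f ↔ f ∈ R := by
  unfold RF
  have e : (fun n => Encodable.encode ((Encodable.decode (α := ℕ) n).map f)) =
      fun n => (f n) + 1 := by
    funext n
    simp
  rw [e]
  constructor
  · intro h
    have h2 := hR.comp _ (P1a_pn hR Primrec.pred) _ h
    simpa using h2
  · intro h
    exact hR.comp _ (P1a_pn hR Primrec.succ) _ h

/-- code of a function -/
theorem P1a_code {f : α → β} (hf : RF R f) :
    ∃ F ∈ R, ∀ a, F (Encodable.encode a) = Encodable.encode (f a) + 1 := by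
  refine ⟨_, hf, fun a => ?_⟩
  simp

/-- a primitive recursive function applied to a pair of members of `R` -/
theorem P1a_app (hR : RC R) {h : ℕ → ℕ → ℕ} (hh : Primrec₂ h) {x y : ℕ → ℕ}
    (hx : x ∈ R) (hy : y ∈ R) : (fun n => h (x n) (y n)) ∈ R := by
  have h1 : Primrec fun n : ℕ => h n.unpair.1 n.unpair.2 :=
    hh.comp (Primrec.fst.comp Primrec.unpair) (Primrec.snd.comp Primrec.unpair)
  have h2 := hR.comp _ (P1a_pn hR h1) _ (hR.pair _ hx _ hy)
  simpa using h2

/-- sufficient criterion: a function `F` in `R` with `F (encode a) = encode (f a) + 1` -/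
theorem P1a_of_code (hR : RC R) {f : α → β} {F : ℕ → ℕ} (hF : F ∈ R)
    (h : ∀ a, F (Encodable.encode a) = Encodable.encode (f a) + 1) : RF R f := by
  have he : (fun n => Encodable.encode (Encodable.decode (α := α) n)) ∈ R :=
    hR.prim _ (Primcodable.prim (α := α))
  have h1 : Primrec₂ fun a b : ℕ => if a = 0 then 0 else b :=
    Primrec.ite (Primrec.eq.comp Primrec.fst (Primrec.const 0)) (Primrec.const 0) Primrec.snd
  have h2 := P1a_app hR h1 he (hR.comp _ hF _ (hR.comp _ (P1a_pn hR Primrec.pred) _ he))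
  unfold RF
  have e : (fun n => Encodable.encode ((Encodable.decode (α := α) n).map f)) =
      fun n => if Encodable.encode (Encodable.decode (α := α) n) = 0 then 0 else
        F (Nat.pred (Encodable.encode (Encodable.decode (α := α) n))) := by
    funext n
    cases hn : Encodable.decode (α := α) n with
    | none => simp
    | some a => simp [h a]
  rw [e]
  exact h2

theorem RF.comp (hR : RC R) {f : β → γ} (hf : RF R f) {g : α → β} (hg : RF R g) :
    RF R (fun a => f (g a)) := by
  obtain ⟨F, hF, hF'⟩ := P1a_code hf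
  obtain ⟨G, hG, hG'⟩ := P1a_code hg
  refine P1a_of_code hR (hR.comp _ hF _ (hR.comp _ (P1a_pn hR Primrec.pred) _ hG)) fun a => ?_
  simp [hG' a, hF']

theorem RF.pair (hR : RC R) {f : α → β} (hf : RF R f) {g : α → γ} (hg : RF R g) :
    RF R (fun a => (f a, g a)) := by
  obtain ⟨F, hF, hF'⟩ := P1a_code hf
  obtain ⟨G, hG, hG'⟩ := P1a_code hg
  have h1 : Primrec₂ fun a b : ℕ => Nat.pair (a - 1) (b - 1) + 1 :=
    Primrec.succ.comp (Primrec₂.natPair.comp
      (Primrec.nat_sub.comp Primrec.fst (Primrec.const 1))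
      (Primrec.nat_sub.comp Primrec.snd (Primrec.const 1)))
  refine P1a_of_code hR (P1a_app hR h1 hF hG) fun a => ?_
  simp [hG' a, hF' a]

theorem RF.const (hR : RC R) (b : β) : RF R (fun _ : α => b) := RF.of_primrec hR (Primrec.const b)

theorem RF.ite (hR : RC R) {P : α → Prop} [DecidablePred P] (hP : RP R P) {f g : α → β}
    (hf : RF R f) (hg : RF R g) : RF R (fun a => if P a then f a else g a) := by
  obtain ⟨D, hD, hD'⟩ := P1a_code hP
  obtain ⟨F, hF, hF'⟩ := P1a_code hf
  obtain ⟨G, hG, hG'⟩ := P1a_code hg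
  have h1 : Primrec₂ fun d c : ℕ => if d = 2 then c.unpair.1 else c.unpair.2 :=
    Primrec.ite (Primrec.eq.comp Primrec.fst (Primrec.const 2))
      (Primrec.fst.comp (Primrec.unpair.comp Primrec.snd))
      (Primrec.snd.comp (Primrec.unpair.comp Primrec.snd))
  refine P1a_of_code hR (P1a_app hR h1 hD (hR.pair _ hF _ hG)) fun a => ?_
  rw [hD' a]
  by_cases hp : P a
  · simp [hp, hF' a]
  · simp [hp, hG' a]

/-- the function defined by primitive recursion, on codes -/
def P1a_H (F G : ℕ → ℕ) (p i : ℕ) : ℕ :=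
  Nat.rec (motive := fun _ => ℕ) (F p) (fun i k => G (Nat.pair p (Nat.pair i (k - 1)))) i

/-- one step of the table of values -/
def P1a_X (F G : ℕ → ℕ) (q : ℕ × List ℕ) : List ℕ :=
  q.2 ++ [if q.1.unpair.2 = 0 then F q.1.unpair.1 else
    G (Nat.pair q.1.unpair.1 (Nat.pair (q.1.unpair.2 - 1)
      (q.2.getD (Nat.pair q.1.unpair.1 (q.1.unpair.2 - 1)) 0 - 1)))]

/-- the table of values -/
def P1a_T (F G : ℕ → ℕ) (n : ℕ) : List ℕ :=
  (List.range n).map fun j => P1a_H F G j.unpair.1 j.unpair.2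

theorem P1a_T_getD (F G : ℕ → ℕ) (n j : ℕ) (h : j < n) :
    (P1a_T F G n).getD j 0 = P1a_H F G j.unpair.1 j.unpair.2 := by
  unfold P1a_T
  rw [List.getD_eq_getElem?_getD]
  simp [h]

theorem P1a_T_succ (F G : ℕ → ℕ) (n : ℕ) : P1a_T F G (n + 1) = P1a_X F G (n, P1a_T F G n) := by
  have h0 : P1a_T F G (n + 1) = P1a_T F G n ++ [P1a_H F G n.unpair.1 n.unpair.2] := by
    unfold P1a_T
    rw [List.range_succ, List.map_append]
    rfl
  rw [h0]
  unfold P1a_X
  congr 2
  show P1a_H F G n.unpair.1 n.unpair.2 = if n.unpair.2 = 0 then F n.unpair.1 else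
    G (Nat.pair n.unpair.1 (Nat.pair (n.unpair.2 - 1)
      ((P1a_T F G n).getD (Nat.pair n.unpair.1 (n.unpair.2 - 1)) 0 - 1)))
  split_ifs with h
  · rw [h]
    rfl
  · obtain ⟨i, hi⟩ := Nat.exists_eq_succ_of_ne_zero h
    have hn : Nat.pair n.unpair.1 (n.unpair.2 - 1) < n := by
      conv_rhs => rw [← Nat.pair_unpair n]
      apply Nat.pair_lt_pair_right
      omega
    rw [P1a_T_getD F G n _ hn, hi]
    simp only [Nat.unpair_pair, Nat.succ_eq_add_one, Nat.add_sub_cancel]
    rfl

theorem P1a_X_mem (hR : RC R) {F G : ℕ → ℕ} (hF : F ∈ R) (hG : G ∈ R) : RF R (P1a_X F G) := by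
  classical
  have hF1 : RF R F := (RF.mem hR).2 hF
  have hG1 : RF R G := (RF.mem hR).2 hG
  have c1 : Primrec fun q : ℕ × List ℕ => q.1.unpair.1 :=
    Primrec.fst.comp (Primrec.unpair.comp Primrec.fst)
  have c2 : Primrec fun q : ℕ × List ℕ => q.1.unpair.2 :=
    Primrec.snd.comp (Primrec.unpair.comp Primrec.fst)
  have c3 : Primrec fun q : ℕ × List ℕ => q.1.unpair.2 - 1 :=
    Primrec.nat_sub.comp c2 (Primrec.const 1)
  have c4 : Primrec fun q : ℕ × List ℕ =>
      q.2.getD (Nat.pair q.1.unpair.1 (q.1.unpair.2 - 1)) 0 - 1 :=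
    Primrec.nat_sub.comp ((Primrec.list_getD 0).comp Primrec.snd (Primrec₂.natPair.comp c1 c3))
      (Primrec.const 1)
  have c5 : Primrec fun q : ℕ × List ℕ => Nat.pair q.1.unpair.1 (Nat.pair (q.1.unpair.2 - 1)
      (q.2.getD (Nat.pair q.1.unpair.1 (q.1.unpair.2 - 1)) 0 - 1)) :=
    Primrec₂.natPair.comp c1 (Primrec₂.natPair.comp c3 c4)
  have hP : RP R fun q : ℕ × List ℕ => q.1.unpair.2 = 0 := by
    have h1 : PrimrecPred fun q : ℕ × List ℕ => q.1.unpair.2 = 0 :=
      Primrec.eq.comp c2 (Primrec.const 0)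
    obtain ⟨i, hi⟩ := h1
    have h2 := RF.of_primrec hR hi
    unfold RP
    have : (fun q : ℕ × List ℕ => @decide (q.1.unpair.2 = 0) (Classical.propDecidable _)) =
        fun q => @decide (q.1.unpair.2 = 0) (i q) := by
      funext q
      congr
    rw [this]
    exact h2
  have h3 := RF.ite hR hP (RF.comp hR hF1 (RF.of_primrec hR c1))
    (RF.comp hR hG1 (RF.of_primrec hR c5))
  have h4 : Primrec fun q : List ℕ × ℕ => q.1 ++ [q.2] :=
    Primrec.list_append.comp Primrec.fst
      (Primrec.list_cons.comp Primrec.snd (Primrec.const []))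
  have h5 := RF.comp hR (RF.of_primrec hR h4)
    (RF.pair hR (RF.of_primrec hR (Primrec.snd (α := ℕ) (β := List ℕ))) h3)
  convert h5 using 2 with q
  unfold P1a_X
  by_cases h : q.1.unpair.2 = 0
  · simp only [h, if_true]
  · simp only [h, if_false]

theorem P1a_T_mem (hR : RC R) {F G : ℕ → ℕ} (hF : F ∈ R) (hG : G ∈ R) : RF R (P1a_T F G) := by
  obtain ⟨x, hx, hx'⟩ := P1a_code (P1a_X_mem hR hF hG)
  have h1 := hR.prec _ (hR.comp _ (P1a_pn hR Primrec.pred) _ hx) (Encodable.encode ([] : List ℕ))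
  have h2 := hR.comp _ (P1a_pn hR Primrec.succ) _ h1
  refine P1a_of_code hR h2 fun n => ?_
  show Nat.succ (Nat.rec (motive := fun _ => ℕ) (Encodable.encode ([] : List ℕ))
    (fun i k => Nat.pred (x (Nat.pair i k))) n) = Encodable.encode (P1a_T F G n) + 1
  have key : ∀ n, Nat.rec (motive := fun _ => ℕ) (Encodable.encode ([] : List ℕ))
    (fun i k => Nat.pred (x (Nat.pair i k))) n = Encodable.encode (P1a_T F G n) := by
    intro n
    induction n with
    | zero => rfl
    | succ n ih =>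
      show Nat.pred (x (Nat.pair n (Nat.rec (motive := fun _ => ℕ) (Encodable.encode ([] : List ℕ))
        (fun i k => Nat.pred (x (Nat.pair i k))) n))) = _
      rw [ih, P1a_T_succ]
      have := hx' (n, P1a_T F G n)
      rw [Encodable.encode_prod_val] at this
      simp only [Encodable.encode_nat] at this
      rw [this]
      rfl
  rw [key n]

theorem P1a_H_mem (hR : RC R) {F G : ℕ → ℕ} (hF : F ∈ R) (hG : G ∈ R) :
    (fun j => P1a_H F G j.unpair.1 j.unpair.2) ∈ R := by
  rw [← RF.mem hR]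
  have h1 := RF.comp hR (P1a_T_mem hR hF hG) (RF.of_primrec hR Primrec.succ)
  have h2 : Primrec fun q : List ℕ × ℕ => q.1.getD q.2 0 :=
    (Primrec.list_getD 0).comp Primrec.fst Primrec.snd
  have h3 := RF.comp hR (RF.of_primrec hR h2) (RF.pair hR h1 (RF.of_primrec hR Primrec.id))
  convert h3 using 2 with j
  exact (P1a_T_getD F G (j + 1) j (Nat.lt_succ_self j)).symm

/-- primitive recursion -/
theorem RF.natRec (hR : RC R) {f : α → β} (hf : RF R f) {g : α × ℕ × β → β} (hg : RF R g)
    {n : α → ℕ} (hn : RF R n) :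
    RF R (fun a => Nat.rec (motive := fun _ => β) (f a) (fun i b => g (a, i, b)) (n a)) := by
  obtain ⟨F, hF, hF'⟩ := P1a_code hf
  obtain ⟨G, hG, hG'⟩ := P1a_code hg
  obtain ⟨N, hN, hN'⟩ := P1a_code hn
  have h1 := hR.comp _ (P1a_H_mem hR hF hG) _
    (hR.pair _ (P1a_pn hR Primrec.id) _ (hR.comp _ (P1a_pn hR Primrec.pred) _ hN))
  refine P1a_of_code hR h1 fun a => ?_
  have key : ∀ i : ℕ, P1a_H F G (Encodable.encode a) i = Encodable.encode
      (Nat.rec (motive := fun _ => β) (f a) (fun i b => g (a, i, b)) i) + 1 := by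
    intro i
    induction i with
    | zero => exact hF' a
    | succ i ih =>
      show G (Nat.pair (Encodable.encode a) (Nat.pair i (P1a_H F G (Encodable.encode a) i - 1))) = _
      rw [ih]
      have := hG' (a, i, Nat.rec (motive := fun _ => β) (f a) (fun i b => g (a, i, b)) i)
      rw [Encodable.encode_prod_val, Encodable.encode_prod_val] at this
      exact this
  have e := hN' a
  simp only [Encodable.encode_nat] at e
  simp only [Nat.unpair_pair, id, e, Nat.pred_succ]
  exact key (n a)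

end Pool.Agent.H.MP_a163f2_lc
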