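import Pool.Agent.H.MP_a163f2_lc.P.P1a

/-!
# Block P, part 1: the calculus of functions and predicates in `R`
-/

set_option autoImplicit false

namespace Pool.Agent.H.MP_a163f2_lc

universe u v w x

variable {R : Set (ℕ → ℕ)}
variable {α : Type u} {β : Type v} {γ : Type w} {δ : Type x}
variable [Primcodable α] [Primcodable β] [Primcodable γ] [Primcodable δ]

theorem RP.of_primrec (hR : RC R) {P : α → Prop} [DecidablePred P] (hP : PrimrecPred P) :
    RP R P := by
  obtain ⟨i, hi⟩ := hP
  have h2 := RF.of_primrec hR hi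
  unfold RP
  have : (fun a => @decide (P a) (Classical.propDecidable _)) = fun a => @decide (P a) (i a) := by
    funext a
    congr
  rw [this]
  exact h2

theorem RP.comp (hR : RC R) {P : β → Prop} (hP : RP R P) {f : α → β} (hf : RF R f) :
    RP R (fun a => P (f a)) := by
  exact RF.comp hR hP hf

theorem RP.not (hR : RC R) {P : α → Prop} (hP : RP R P) : RP R (fun a => ¬ P a) := by
  have h := RF.comp hR (RF.of_primrec hR Primrec.not) hP
  unfold RP
  have e : (fun a => @decide (¬ P a) (Classical.propDecidable _)) =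
      fun a => !(@decide (P a) (Classical.propDecidable _)) := by
    funext a
    by_cases hp : P a <;> simp [hp]
  rw [e]
  exact h

theorem RP.and (hR : RC R) {P Q : α → Prop} (hP : RP R P) (hQ : RP R Q) :
    RP R (fun a => P a ∧ Q a) := by
  have h := RF.comp hR (RF.of_primrec hR Primrec.and) (RF.pair hR hP hQ)
  unfold RP
  have e : (fun a => @decide (P a ∧ Q a) (Classical.propDecidable _)) =
      fun a => (@decide (P a) (Classical.propDecidable _)) &&
        (@decide (Q a) (Classical.propDecidable _)) := by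
    funext a
    by_cases hp : P a <;> by_cases hq : Q a <;> simp [hp, hq]
  rw [e]
  exact h

theorem RP.or (hR : RC R) {P Q : α → Prop} (hP : RP R P) (hQ : RP R Q) :
    RP R (fun a => P a ∨ Q a) := by
  have h := RF.comp hR (RF.of_primrec hR Primrec.or) (RF.pair hR hP hQ)
  unfold RP
  have e : (fun a => @decide (P a ∨ Q a) (Classical.propDecidable _)) =
      fun a => (@decide (P a) (Classical.propDecidable _)) ||
        (@decide (Q a) (Classical.propDecidable _)) := by
    funext a
    by_cases hp : P a <;> by_cases hq : Q a <;> simp [hp, hq]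
  rw [e]
  exact h

theorem RP.eq (hR : RC R) {f g : α → β} (hf : RF R f) (hg : RF R g) :
    RP R (fun a => f a = g a) := by
  classical
  have h1 : PrimrecPred fun p : β × β => p.1 = p.2 := Primrec.eq.comp Primrec.fst Primrec.snd
  exact RP.comp hR (RP.of_primrec hR h1) (RF.pair hR hf hg)

theorem RP.lt (hR : RC R) {f g : α → ℕ} (hf : RF R f) (hg : RF R g) :
    RP R (fun a => f a < g a) := by
  have h1 : PrimrecPred fun p : ℕ × ℕ => p.1 < p.2 := Primrec.nat_lt.comp Primrec.fst Primrec.snd
  exact RP.comp hR (RP.of_primrec hR h1) (RF.pair hR hf hg)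

theorem RP.mem (hR : RC R) {x : ℕ → ℕ} (hx : x ∈ R) : RP R (fun n => x n = 0) := by
  exact RP.eq hR ((RF.mem hR).2 hx) (RF.const hR 0)

/-- the indicator function of a predicate in `R` -/
theorem RP.ind (hR : RC R) {P : ℕ → Prop} [DecidablePred P] (hP : RP R P) :
    (fun n => if P n then 1 else 0) ∈ R := by
  exact (RF.mem hR).1 (RF.ite hR hP (RF.const hR 1) (RF.const hR 0))

theorem RF.ini (hR : RC R) {x : ℕ → ℕ} (hx : x ∈ R) : RF R (fun k : ℕ => ini x k) := by
  have hx' : RF R x := (RF.mem hR).2 hx
  have hg : RF R (fun p : ℕ × ℕ × List ℕ => p.2.2 ++ [x p.2.1]) := by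
    have h1 : RF R (fun p : ℕ × ℕ × List ℕ => x p.2.1) :=
      RF.comp hR hx' (RF.of_primrec hR (Primrec.fst.comp Primrec.snd))
    have h2 : RF R (fun p : ℕ × ℕ × List ℕ => p.2.2) :=
      RF.of_primrec hR (Primrec.snd.comp Primrec.snd)
    have h3 : Primrec fun q : List ℕ × ℕ => q.1 ++ [q.2] :=
      Primrec.list_append.comp Primrec.fst
        (Primrec.list_cons.comp Primrec.snd (Primrec.const []))
    exact RF.comp hR (RF.of_primrec hR h3) (RF.pair hR h2 h1)
  have h := RF.natRec hR (RF.const hR ([] : List ℕ) (α := ℕ)) hg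
    (RF.of_primrec hR (Primrec.id (α := ℕ)))
  have e : (fun k : ℕ => Pool.Agent.H.MP_a163f2_lc.ini x k) = fun a : ℕ => Nat.rec (motive := fun _ => List ℕ) []
      (fun i b => b ++ [x i]) (id a) := by
    funext a
    show Pool.Agent.H.MP_a163f2_lc.ini x a = Nat.rec (motive := fun _ => List ℕ) [] (fun i b => b ++ [x i]) a
    induction a with
    | zero => rfl
    | succ a ih =>
      show Pool.Agent.H.MP_a163f2_lc.ini x (a + 1) = Nat.rec (motive := fun _ => List ℕ) [] (fun i b => b ++ [x i]) a ++
        [x a]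
      rw [← ih]
      unfold Pool.Agent.H.MP_a163f2_lc.ini
      rw [List.range_succ, List.map_append]
      rfl
  rw [e]
  exact h

end Pool.Agent.H.MP_a163f2_lc
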