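import Pool.Agent.H.MP_a163f2_lc.P.P1b

/-!
# Block P, part 1: the calculus of functions and predicates in `R`
-/

set_option autoImplicit false

namespace Pool.Agent.H.MP_a163f2_lc

universe u v w x

variable {R : Set (ℕ → ℕ)}
variable {α : Type u} {β : Type v} {γ : Type w} {δ : Type x}
variable [Primcodable α] [Primcodable β] [Primcodable γ] [Primcodable δ]

/-- the code of the indicator of a binary predicate -/
noncomputable def P1c_D (P : α → β → Prop) (n : ℕ) : ℕ :=
  Encodable.encode ((Encodable.decode (α := α × β) n).map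
    (fun y => @decide (P y.1 y.2) (Classical.propDecidable _)))

theorem P1c_D_eq {P : α → β → Prop} {n m : ℕ} {a : α} (hn : Encodable.decode n = some a) :
    P1c_D P (Nat.pair n m) = 2 ↔ ∃ b, Encodable.decode m = some b ∧ P a b := by
  unfold P1c_D
  rw [Encodable.decode_prod_val]
  simp only [Nat.unpair_pair, hn]
  cases hm : Encodable.decode (α := β) m with
  | none => simp
  | some b =>
    by_cases h : P a b
    · simp [h]
    · simp [h]

/-- number quantifiers over any type coded by natural numbers -/
theorem RP.ex (hR : RC R) {P : α → β → Prop} (hP : RP R (fun y : α × β => P y.1 y.2)) :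
    RP R (fun a => ∃ b, P a b) := by
  have hD : P1c_D P ∈ R := hP
  have h1 : Primrec fun d : ℕ => if d = 2 then 0 else 1 :=
    Primrec.ite (Primrec.eq.comp Primrec.id (Primrec.const 2)) (Primrec.const 0)
      (Primrec.const 1)
  have h2 := hR.comp _ (P1a_pn hR Primrec.succ) _ (hR.jump _ (hR.comp _ (P1a_pn hR h1) _ hD))
  refine P1a_of_code hR h2 fun a => ?_
  have key : (∃ m, (if P1c_D P (Nat.pair (Encodable.encode a) m) = 2 then 0 else 1) = 0) ↔
      ∃ b, P a b := by
    constructor
    · rintro ⟨m, hm⟩
      have h3 : P1c_D P (Nat.pair (Encodable.encode a) m) = 2 := by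
        by_contra h
        rw [if_neg h] at hm
        exact one_ne_zero hm
      obtain ⟨b, -, hb⟩ := (P1c_D_eq (Encodable.encodek a)).1 h3
      exact ⟨b, hb⟩
    · rintro ⟨b, hb⟩
      refine ⟨Encodable.encode b, ?_⟩
      rw [if_pos ((P1c_D_eq (Encodable.encodek a)).2 ⟨b, Encodable.encodek b, hb⟩)]
  by_cases h : ∃ b, P a b
  · have h4 := key.2 h
    simp only [if_pos h4, h]
    simp
  · have h4 := fun h5 => h (key.1 h5)
    simp only [if_neg h4, h]
    simp

theorem RP.all (hR : RC R) {P : α → β → Prop} (hP : RP R (fun y : α × β => P y.1 y.2)) :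
    RP R (fun a => ∀ b, P a b) := by
  have h := RP.not hR (RP.ex hR (P := fun a b => ¬ P a b) (RP.not hR hP))
  have e : (fun a => ∀ b, P a b) = fun a => ¬ ∃ b, ¬ P a b := by
    funext a
    simp
  rw [e]
  exact h

/-- a function with graph in `R` is in `R` (unbounded search) -/
theorem RF.of_graph (hR : RC R) {f : α → β} (hf : RP R (fun y : α × β => f y.1 = y.2)) :
    RF R f := by
  have hD : P1c_D (fun a b => f a = b) ∈ R := hf
  have he : (fun n => Encodable.encode (Encodable.decode (α := α) n)) ∈ R :=
    hR.prim _ (Primcodable.prim (α := α))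
  have he2 : (fun n => Encodable.encode (Encodable.decode (α := α) n.unpair.1)) ∈ R :=
    hR.comp _ he _ (P1a_pn hR (Primrec.fst.comp Primrec.unpair))
  have h1 : Primrec₂ fun c d : ℕ => if c = 0 then 0 else if d = 2 then 0 else 1 :=
    Primrec.ite (Primrec.eq.comp Primrec.fst (Primrec.const 0)) (Primrec.const 0)
      (Primrec.ite (Primrec.eq.comp Primrec.snd (Primrec.const 2)) (Primrec.const 0)
        (Primrec.const 1))
  have hx := P1a_app hR h1 he2 hD
  set x : ℕ → ℕ := fun n => if Encodable.encode (Encodable.decode (α := α) n.unpair.1) = 0 then 0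
    else if P1c_D (fun a b => f a = b) n = 2 then 0 else 1 with hxd
  have hex : ∀ n, ∃ m, x (Nat.pair n m) = 0 := by
    intro n
    cases hn : Encodable.decode (α := α) n with
    | none =>
      refine ⟨0, ?_⟩
      rw [hxd]
      simp [hn]
    | some a =>
      refine ⟨Encodable.encode (f a), ?_⟩
      have h2 : P1c_D (fun a b => f a = b) (Nat.pair n (Encodable.encode (f a))) = 2 :=
        (P1c_D_eq hn).2 ⟨f a, Encodable.encodek _, rfl⟩
      rw [hxd]
      simp only [h2, if_true]
      split_ifs <;> rfl
  have hx0 : ∀ (a : α) (m : ℕ), x (Nat.pair (Encodable.encode a) m) = 0 →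
      P1c_D (fun a b => f a = b) (Nat.pair (Encodable.encode a) m) = 2 := by
    intro a m h4
    by_contra h
    rw [hxd] at h4
    simp only [Nat.unpair_pair, Encodable.encodek, Encodable.encode_some, Nat.succ_ne_zero,
      if_false, if_neg h] at h4
  classical
  have hy : (fun n => Nat.find (hex n)) ∈ R :=
    hR.mu x hx _ fun n => ⟨Nat.find_spec (hex n), fun m hm => Nat.find_min (hex n) hm⟩
  have h3 := hR.comp _ (hR.prim _ (Primcodable.prim (α := β))) _ hy
  refine P1a_of_code hR h3 fun a => ?_
  have h5 : P1c_D (fun a b => f a = b)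
      (Nat.pair (Encodable.encode a) (Nat.find (hex (Encodable.encode a)))) = 2 :=
    hx0 a _ (Nat.find_spec (hex (Encodable.encode a)))
  obtain ⟨b, hb, hb'⟩ := (P1c_D_eq (Encodable.encodek a)).1 h5
  show Encodable.encode (Encodable.decode (α := β) (Nat.find (hex (Encodable.encode a)))) = _
  rw [hb, ← hb']
  rfl

end Pool.Agent.H.MP_a163f2_lc
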