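import Pool.Agent.H.MP_a163f2_lc.P.P2b

/-!
# Block P, part 2: continuous functionals with modulus in `R`
-/

set_option autoImplicit false

namespace Pool.Agent.H.MP_a163f2_lc

universe u v w x

variable {R : Set (ℕ → ℕ)}
variable {α : Type u} {β : Type v} {γ : Type w}
variable [Primcodable α] [Primcodable β] [Primcodable γ]

/-! ### Examples -/

theorem CF.id' (hR : RC R) : CF R (fun x (n : ℕ) => x n) :=
  CF.app hR (CF.num hR (RF.of_primrec hR Primrec.id))

theorem CF.cst (hR : RC R) {a : ℕ → ℕ} (ha : a ∈ R) : CF R (fun _ n => a n) :=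
  CF.num hR ((RF.mem hR).2 ha)

theorem P2_eq_zero (hR : RC R) : RP R (fun n : ℕ => n = 0) :=
  RP.eq hR (RF.of_primrec hR Primrec.id) (RF.const hR 0)

theorem CF.lf (hR : RC R) {F : (ℕ → ℕ) → ℕ → ℕ} (hF : CF R F) : CF R (fun x n => lf (F x) n) := by
  exact CF.par hR hF (g := fun n : ℕ => 2 * n)
    (RF.of_primrec hR (Primrec.nat_mul.comp (Primrec.const 2) Primrec.id))

theorem CF.rg (hR : RC R) {F : (ℕ → ℕ) → ℕ → ℕ} (hF : CF R F) : CF R (fun x n => rg (F x) n) := by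
  exact CF.par hR hF (g := fun n : ℕ => 2 * n + 1)
    (RF.of_primrec hR (Primrec.succ.comp (Primrec.nat_mul.comp (Primrec.const 2) Primrec.id)))

theorem CF.tl (hR : RC R) {F : (ℕ → ℕ) → ℕ → ℕ} (hF : CF R F) : CF R (fun x n => tl (F x) n) := by
  exact CF.par hR hF (g := fun n : ℕ => n + 1) (RF.of_primrec hR Primrec.succ)

theorem CF.jn (hR : RC R) {F G : (ℕ → ℕ) → ℕ → ℕ} (hF : CF R F) (hG : CF R G) :
    CF R (fun x n => jn (F x) (G x) n) := by
  have h2 : RF R (fun n : ℕ => n / 2) :=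
    RF.of_primrec hR (Primrec.nat_div.comp Primrec.id (Primrec.const 2))
  have hP : RP R (fun n : ℕ => n % 2 = 0) :=
    RP.eq hR (RF.of_primrec hR (Primrec.nat_mod.comp Primrec.id (Primrec.const 2)))
      (RF.const hR 0)
  exact CF.ite hR (P := fun n : ℕ => n % 2 = 0) hP (CF.par hR hF h2) (CF.par hR hG h2)

/-- the first value of the new real is a functional of `x` -/
theorem CF.cn (hR : RC R) {φ : (ℕ → ℕ) → Unit → ℕ} (hφ : CF R φ) {F : (ℕ → ℕ) → ℕ → ℕ}
    (hF : CF R F) : CF R (fun x n => cn (φ x ()) (F x) n) := by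
  have hφ1 : CF R (fun x (_ : ℕ) => φ x ()) := CF.par hR hφ (RF.const hR ())
  have h2 : RF R (fun n : ℕ => n - 1) := RF.of_primrec hR Primrec.pred
  have h3 := CF.ite hR (P := fun n : ℕ => n = 0) (P2_eq_zero hR) hφ1 (CF.par hR hF h2)
  have h4 : (fun x n => MP_a163f2_lc.cn (φ x ()) (F x) n) =
      fun x n => if n = 0 then φ x () else F x (n - 1) := by
    funext x n
    cases n with
    | zero => rfl
    | succ n => rfl
  rw [h4]
  exact h3

/-- the section of a real with number a functional of `x` -/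
theorem CF.sec (hR : RC R) {φ : (ℕ → ℕ) → Unit → ℕ} (hφ : CF R φ) {F : (ℕ → ℕ) → ℕ → ℕ}
    (hF : CF R F) : CF R (fun x n => sec (F x) (φ x ()) n) := by
  have hφ1 : CF R (fun x (_ : ℕ) => φ x ()) := CF.par hR hφ (RF.const hR ())
  have hid : CF R (fun _ (n : ℕ) => n) := CF.num hR (RF.of_primrec hR Primrec.id)
  have hp : CF R (fun x (n : ℕ) => Nat.pair (φ x ()) n) :=
    CF.comp2 hR (g := fun p : ℕ × ℕ => Nat.pair p.1 p.2)
      (RF.of_primrec hR (Primrec₂.natPair.comp Primrec.fst Primrec.snd)) hφ1 hid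
  have hF1 : CF R (fun x (p : ℕ × ℕ) => F x p.2) :=
    CF.par hR hF (g := fun p : ℕ × ℕ => p.2) (RF.of_primrec hR Primrec.snd)
  exact CF.sub hR hF1 hp

theorem CF.T3 (hR : RC R) {φ : (ℕ → ℕ) → Unit → ℕ} (hφ : CF R φ) {F G : (ℕ → ℕ) → ℕ → ℕ}
    (hF : CF R F) (hG : CF R G) :
    CF R (fun x n => if n = 0 then φ x () else if n % 2 = 1 then F x (n / 2)
      else G x (n / 2 - 1)) := by
  have hφ1 : CF R (fun x (_ : ℕ) => φ x ()) := CF.par hR hφ (RF.const hR ())
  have h2 : RF R (fun n : ℕ => n / 2) :=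
    RF.of_primrec hR (Primrec.nat_div.comp Primrec.id (Primrec.const 2))
  have h3 : RF R (fun n : ℕ => n / 2 - 1) :=
    RF.of_primrec hR (Primrec.pred.comp (Primrec.nat_div.comp Primrec.id (Primrec.const 2)))
  have hP : RP R (fun n : ℕ => n % 2 = 1) :=
    RP.eq hR (RF.of_primrec hR (Primrec.nat_mod.comp Primrec.id (Primrec.const 2)))
      (RF.const hR 1)
  have h4 := CF.ite hR (P := fun n : ℕ => n % 2 = 1) hP (CF.par hR hF h2) (CF.par hR hG h3)
  exact CF.ite hR (P := fun n : ℕ => n = 0) (P2_eq_zero hR) hφ1 h4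

end Pool.Agent.H.MP_a163f2_lc
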