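import Pool.Agent.H.MP_a163f2_lc.P.P1

/-!
# Block P, part 2: continuous functionals with modulus in `R`
-/

set_option autoImplicit false

namespace Pool.Agent.H.MP_a163f2_lc

universe u v w x

variable {R : Set (ℕ → ℕ)}
variable {α : Type u} {β : Type v} {γ : Type w}
variable [Primcodable α] [Primcodable β] [Primcodable γ]

theorem P2a_take (x : ℕ → ℕ) (k i : ℕ) (h : i ≤ k) : (ini x k).take i = ini x i := by
  unfold ini
  rw [← List.map_take, List.take_range, min_eq_left h]

theorem P2a_length (x : ℕ → ℕ) (k : ℕ) : (ini x k).length = k := by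
  unfold ini
  rw [List.length_map, List.length_range]

theorem P2a_get (x : ℕ → ℕ) (k n : ℕ) (h : n < k) : (ini x k)[n]? = some (x n) := by
  unfold ini
  rw [List.getElem?_map, List.getElem?_range h]
  rfl

theorem P2a_get' (x : ℕ → ℕ) (k n v : ℕ) (h : (ini x k)[n]? = some v) : v = x n := by
  rcases lt_or_ge n k with h1 | h1
  · rw [P2a_get x k n h1] at h
    exact (Option.some.inj h).symm
  · rw [List.getElem?_eq_none (by rw [P2a_length]; exact h1)] at h
    exact absurd h (by simp)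

/-- the value found first among the initial segments of length smaller than `m` -/
def P2a_first (Θ : List ℕ × α → Option ℕ) (y : List ℕ × α) (m : ℕ) : Option ℕ :=
  Nat.rec (motive := fun _ => Option ℕ) none
    (fun i b => if b.isSome = true then b else Θ (y.1.take i, y.2)) m

theorem P2a_first_succ (Θ : List ℕ × α → Option ℕ) (y : List ℕ × α) (m : ℕ) :
    P2a_first Θ y (m + 1) = if (P2a_first Θ y m).isSome = true then P2a_first Θ y m
      else Θ (y.1.take m, y.2) := rfl

theorem P2a_first_mem (Θ : List ℕ × α → Option ℕ) (y : List ℕ × α) (m v : ℕ)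
    (h : P2a_first Θ y m = some v) : ∃ i < m, Θ (y.1.take i, y.2) = some v := by
  induction m with
  | zero => exact absurd h (by simp [P2a_first])
  | succ m ih =>
    rw [P2a_first_succ] at h
    split_ifs at h with h1
    · obtain ⟨i, hi, h2⟩ := ih h
      exact ⟨i, by omega, h2⟩
    · exact ⟨m, by omega, h⟩

theorem P2a_first_isSome (Θ : List ℕ × α → Option ℕ) (y : List ℕ × α) (m i : ℕ) (hi : i < m)
    (h : (Θ (y.1.take i, y.2)).isSome = true) : (P2a_first Θ y m).isSome = true := by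
  induction m with
  | zero => omega
  | succ m ih =>
    rw [P2a_first_succ]
    split_ifs with h1
    · exact h1
    · rcases Nat.lt_or_ge i m with h2 | h2
      · exact absurd (ih h2) h1
      · have h3 : i = m := by omega
        rw [← h3]
        exact h

theorem P2a_first_rf (hR : RC R) {Θ : List ℕ × α → Option ℕ} (hΘ : RF R Θ) :
    RF R (fun y : List ℕ × α => P2a_first Θ y (y.1.length + 1)) := by
  have h0 : RF R (fun _ : List ℕ × α => (none : Option ℕ)) := RF.const hR none
  have hl : RF R (fun y : List ℕ × α => y.1.length + 1) :=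
    RF.of_primrec hR (Primrec.succ.comp (Primrec.list_length.comp Primrec.fst))
  have hp : RP R (fun y : (List ℕ × α) × ℕ × Option ℕ => y.2.2.isSome = true) := by
    apply RP.of_primrec hR
    exact Primrec.eq.comp (Primrec.option_isSome.comp (Primrec.snd.comp Primrec.snd))
      (Primrec.const true)
  have hb : RF R (fun y : (List ℕ × α) × ℕ × Option ℕ => y.2.2) :=
    RF.of_primrec hR (Primrec.snd.comp Primrec.snd)
  have ht : RF R (fun y : (List ℕ × α) × ℕ × Option ℕ => (y.1.1.take y.2.1, y.1.2)) := by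
    apply RF.of_primrec hR
    exact (Primrec.list_take.comp (Primrec.fst.comp Primrec.snd)
      (Primrec.fst.comp Primrec.fst)).pair (Primrec.snd.comp Primrec.fst)
  have hs : RF R (fun y : (List ℕ × α) × ℕ × Option ℕ =>
      if y.2.2.isSome = true then y.2.2 else Θ (y.1.1.take y.2.1, y.1.2)) :=
    RF.ite hR hp hb (RF.comp hR hΘ ht)
  exact RF.natRec hR h0 hs hl

/-- a modulus which is defined for all long initial segments -/
theorem P2a_mono (hR : RC R) {φ : (ℕ → ℕ) → α → ℕ} (hφ : CF R φ) :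
    ∃ Θ : List ℕ × α → Option ℕ, RF R Θ ∧ ∀ x ∈ R, ∀ a,
      (∃ K, ∀ k, K ≤ k → Θ (ini x k, a) = some (φ x a)) ∧
        ∀ k v, Θ (ini x k, a) = some v → v = φ x a := by
  obtain ⟨Θ, hΘ, h⟩ := hφ
  refine ⟨_, P2a_first_rf hR hΘ, fun x hx a => ?_⟩
  obtain ⟨⟨K, hK⟩, h2⟩ := h x hx a
  have h3 : ∀ k v, P2a_first Θ (ini x k, a) ((ini x k).length + 1) = some v → v = φ x a := by
    intro k v hv
    obtain ⟨i, hi, h4⟩ := P2a_first_mem _ _ _ _ hv
    rw [P2a_length] at hi
    rw [show ((ini x k, a) : List ℕ × α).1.take i = ini x i from P2a_take x k i (by omega)] at h4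
    exact h2 i v h4
  refine ⟨⟨K, fun k hk => ?_⟩, h3⟩
  have h5 : (P2a_first Θ (ini x k, a) ((ini x k).length + 1)).isSome = true := by
    apply P2a_first_isSome Θ _ _ K
    · rw [P2a_length]
      omega
    · rw [show ((ini x k, a) : List ℕ × α).1.take K = ini x K from P2a_take x k K hk, hK]
      rfl
  obtain ⟨v, hv⟩ := Option.isSome_iff_exists.1 h5
  show P2a_first Θ (ini x k, a) ((ini x k).length + 1) = some (φ x a)
  rw [hv, h3 k v hv]

/-- a number depending on the parameter only -/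
theorem CF.num (hR : RC R) {g : α → ℕ} (hg : RF R g) : CF R (fun _ a => g a) := by
  refine ⟨fun y => some (g y.2), ?_, fun x _ a => ⟨⟨0, rfl⟩, fun k v h => ?_⟩⟩
  · exact RF.comp hR (RF.of_primrec hR Primrec.option_some)
      (RF.comp hR hg (RF.of_primrec hR Primrec.snd))
  · exact (Option.some.inj h).symm

/-- a value of the argument -/
theorem CF.app (hR : RC R) {φ : (ℕ → ℕ) → α → ℕ} (hφ : CF R φ) : CF R (fun x a => x (φ x a)) := by
  obtain ⟨Θ, hΘ, h⟩ := P2a_mono hR hφ
  refine ⟨fun y => (Θ y).bind fun n => y.1[n]?, ?_, fun x hx a => ?_⟩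
  · have h1 : Primrec (fun z : (List ℕ × α) × Option ℕ => z.2.bind fun n => z.1.1[n]?) := by
      apply Primrec.option_bind Primrec.snd
      exact (Primrec.list_getElem?.comp (Primrec.fst.comp (Primrec.fst.comp Primrec.fst))
        Primrec.snd).to₂
    exact RF.comp hR (RF.of_primrec hR h1) (RF.pair hR (RF.of_primrec hR Primrec.id) hΘ)
  · obtain ⟨⟨K, hK⟩, h2⟩ := h x hx a
    constructor
    · refine ⟨max K (φ x a + 1), ?_⟩
      show (Θ (ini x (max K (φ x a + 1)), a)).bind _ = _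
      rw [hK _ (le_max_left _ _)]
      exact P2a_get x _ _ (lt_of_lt_of_le (Nat.lt_succ_self _) (le_max_right _ _))
    · intro k v hv
      obtain ⟨n, hn, h3⟩ := Option.bind_eq_some_iff.1 hv
      show v = x (φ x a)
      rw [← h2 k n hn]
      exact P2a_get' x k n v h3

theorem P2a_pair (hR : RC R) {g : ℕ × ℕ → ℕ} (hg : RF R g) {Θ Λ : List ℕ × α → Option ℕ}
    (hΘ : RF R Θ) (hΛ : RF R Λ) :
    RF R (fun y => if (Θ y).isSome = true ∧ (Λ y).isSome = true then
      some (g ((Θ y).getD 0, (Λ y).getD 0)) else none) := by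
  have h1 : RP R (fun y => (Θ y).isSome = true ∧ (Λ y).isSome = true) := by
    apply RP.and hR
    · exact RP.comp hR (P := fun o : Option ℕ => o.isSome = true)
        (RP.of_primrec hR (Primrec.eq.comp Primrec.option_isSome (Primrec.const true))) hΘ
    · exact RP.comp hR (P := fun o : Option ℕ => o.isSome = true)
        (RP.of_primrec hR (Primrec.eq.comp Primrec.option_isSome (Primrec.const true))) hΛ
  have hd : RF R (fun o : Option ℕ => o.getD 0) :=
    RF.of_primrec hR (Primrec.option_getD.comp Primrec.id (Primrec.const 0))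
  refine RF.ite hR h1 ?_ (RF.const hR none)
  exact RF.comp hR (RF.of_primrec hR Primrec.option_some)
    (RF.comp hR hg (RF.pair hR (RF.comp hR hd hΘ) (RF.comp hR hd hΛ)))

/-- a function in `R` of two numbers (for more numbers use `Nat.pair`) -/
theorem CF.comp2 (hR : RC R) {g : ℕ × ℕ → ℕ} (hg : RF R g) {φ ψ : (ℕ → ℕ) → α → ℕ}
    (hφ : CF R φ) (hψ : CF R ψ) : CF R (fun x a => g (φ x a, ψ x a)) := by
  obtain ⟨Θ, hΘ, h⟩ := P2a_mono hR hφ
  obtain ⟨Λ, hΛ, h'⟩ := P2a_mono hR hψ
  refine ⟨_, P2a_pair hR hg hΘ hΛ, fun x hx a => ?_⟩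
  obtain ⟨⟨K, hK⟩, h2⟩ := h x hx a
  obtain ⟨⟨K', hK'⟩, h2'⟩ := h' x hx a
  constructor
  · refine ⟨max K K', ?_⟩
    rw [hK _ (le_max_left _ _), hK' _ (le_max_right _ _)]
    rfl
  · intro k v hv
    split_ifs at hv with h3
    obtain ⟨n, hn⟩ := Option.isSome_iff_exists.1 h3.1
    obtain ⟨m, hm⟩ := Option.isSome_iff_exists.1 h3.2
    rw [hn, hm] at hv
    show v = g (φ x a, ψ x a)
    rw [← h2 k n hn, ← h2' k m hm]
    exact (Option.some.inj hv).symm

theorem CF.comp1 (hR : RC R) {g : ℕ → ℕ} (hg : RF R g) {φ : (ℕ → ℕ) → α → ℕ}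
    (hφ : CF R φ) : CF R (fun x a => g (φ x a)) :=
  CF.comp2 hR (g := fun y : ℕ × ℕ => g y.1)
    (RF.comp hR hg (RF.of_primrec hR Primrec.fst)) hφ hφ

/-- substitution of a parameter -/
theorem CF.par (hR : RC R) {φ : (ℕ → ℕ) → β → ℕ} (hφ : CF R φ) {g : α → β} (hg : RF R g) :
    CF R (fun x a => φ x (g a)) := by
  obtain ⟨Θ, hΘ, h⟩ := hφ
  refine ⟨fun y => Θ (y.1, g y.2), ?_, fun x hx a => h x hx (g a)⟩
  exact RF.comp hR hΘ (RF.pair hR (RF.of_primrec hR Primrec.fst)
    (RF.comp hR hg (RF.of_primrec hR Primrec.snd)))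

/-- definition by cases -/
theorem CF.ite (hR : RC R) {P : α → Prop} [DecidablePred P] (hP : RP R P)
    {φ ψ : (ℕ → ℕ) → α → ℕ} (hφ : CF R φ) (hψ : CF R ψ) :
    CF R (fun x a => if P a then φ x a else ψ x a) := by
  obtain ⟨Θ, hΘ, h⟩ := hφ
  obtain ⟨Λ, hΛ, h'⟩ := hψ
  refine ⟨fun y => if P y.2 then Θ y else Λ y, ?_, fun x hx a => ?_⟩
  · exact RF.ite hR (RP.comp hR hP (RF.of_primrec hR Primrec.snd)) hΘ hΛ
  · by_cases hp : P a
    · simp only [if_pos hp]
      exact h x hx a
    · simp only [if_neg hp]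
      exact h' x hx a

/-- the value of a functional is in `R` -/
theorem CF.mem (hR : RC R) {F : (ℕ → ℕ) → ℕ → ℕ} (hF : CF R F) {x : ℕ → ℕ} (hx : x ∈ R) :
    F x ∈ R := by
  obtain ⟨Θ, hΘ, h⟩ := hF
  rw [← RF.mem hR]
  apply RF.of_graph hR
  have h1 : (fun y : ℕ × ℕ => F x y.1 = y.2) =
      fun y : ℕ × ℕ => ∃ k : ℕ, Θ (ini x k, y.1) = some y.2 := by
    funext y
    obtain ⟨⟨K, hK⟩, h2⟩ := h x hx y.1
    apply propext
    constructor
    · intro h3
      exact ⟨K, by rw [hK, h3]⟩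
    · rintro ⟨k, hk⟩
      exact (h2 k _ hk).symm
  rw [h1]
  apply RP.ex hR (P := fun (y : ℕ × ℕ) (k : ℕ) => Θ (ini x k, y.1) = some y.2)
  apply RP.eq hR
  · exact RF.comp hR hΘ (RF.pair hR (RF.comp hR (RF.ini hR hx) (RF.of_primrec hR Primrec.snd))
      (RF.of_primrec hR (Primrec.fst.comp Primrec.fst)))
  · exact RF.of_primrec hR (Primrec.option_some.comp (Primrec.snd.comp Primrec.fst))

end Pool.Agent.H.MP_a163f2_lc
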