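import Pool.Agent.H.MP_a163f2_lc.P.P2a

/-!
# Block P, part 2: continuous functionals with modulus in `R`
-/

set_option autoImplicit false

namespace Pool.Agent.H.MP_a163f2_lc

universe u v w x

variable {R : Set (ℕ → ℕ)}
variable {α : Type u} {β : Type v} {γ : Type w}
variable [Primcodable α] [Primcodable β] [Primcodable γ]

open Classical in
/-- a witness with the least code -/
noncomputable def P2b_ch (P : β → γ → Prop) (b : β) : Option γ :=
  if h : ∃ n : ℕ, ∃ c : γ, Encodable.encode c = n ∧ P b c then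
    some (Classical.choose (Nat.find_spec h)) else none

theorem P2b_ch_spec (P : β → γ → Prop) (b : β) (c : γ) (h : P2b_ch P b = some c) :
    P b c ∧ ∀ c', P b c' → ¬ Encodable.encode c' < Encodable.encode c := by
  classical
  unfold P2b_ch at h
  split_ifs at h with h1
  have h2 := Classical.choose_spec (Nat.find_spec h1)
  have h3 := Option.some.inj h
  rw [h3] at h2
  refine ⟨h2.2, fun c' hc' hlt => ?_⟩
  rw [h2.1] at hlt
  exact Nat.find_min h1 hlt ⟨c', rfl, hc'⟩

theorem P2b_ch_some (P : β → γ → Prop) (b : β) (h : ∃ c, P b c) : ∃ c, P2b_ch P b = some c := by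
  classical
  obtain ⟨c, hc⟩ := h
  unfold P2b_ch
  rw [dif_pos ⟨Encodable.encode c, c, rfl, hc⟩]
  exact ⟨_, rfl⟩

theorem P2b_ch_none (P : β → γ → Prop) (b : β) (h : ¬ ∃ c, P b c) : P2b_ch P b = none := by
  cases h1 : P2b_ch P b with
  | none => rfl
  | some c => exact absurd ⟨c, (P2b_ch_spec P b c h1).1⟩ h

theorem P2b_graph (P : β → γ → Prop) (b : β) (o : Option γ) : P2b_ch P b = o ↔
    (o = none ∧ ¬ ∃ c, P b c) ∨
    (∃ c, o = some c ∧ P b c ∧ ¬ ∃ c', P b c' ∧ Encodable.encode c' < Encodable.encode c) := by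
  constructor
  · rintro rfl
    by_cases h : ∃ c, P b c
    · obtain ⟨c, hc⟩ := P2b_ch_some P b h
      have h1 := P2b_ch_spec P b c hc
      exact Or.inr ⟨c, hc, h1.1, fun ⟨c', h2, h3⟩ => h1.2 c' h2 h3⟩
    · exact Or.inl ⟨P2b_ch_none P b h, h⟩
  · rintro (⟨rfl, h⟩ | ⟨c, rfl, h1, h2⟩)
    · exact P2b_ch_none P b h
    · obtain ⟨d, hd⟩ := P2b_ch_some P b ⟨c, h1⟩
      have h3 := P2b_ch_spec P b d hd
      rw [hd]
      have h4 : Encodable.encode c = Encodable.encode d := by
        have h5 := h3.2 c h1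
        have h6 : ¬ Encodable.encode d < Encodable.encode c := fun h => h2 ⟨d, h3.1, h⟩
        omega
      rw [Encodable.encode_injective h4]

theorem P2b_choose (hR : RC R) {P : β → γ → Prop} (hP : RP R (fun y : β × γ => P y.1 y.2)) :
    RF R (P2b_ch P) := by
  refine RF.of_graph hR ?_
  have key : (fun y : β × Option γ => P2b_ch P y.1 = y.2) = (fun y : β × Option γ =>
      (y.2 = none ∧ ¬ ∃ c, P y.1 c) ∨
      (∃ c, y.2 = some c ∧ P y.1 c ∧
        ¬ ∃ c', P y.1 c' ∧ Encodable.encode c' < Encodable.encode c)) := by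
    funext y
    exact propext (P2b_graph P y.1 y.2)
  rw [key]
  refine RP.or hR (RP.and hR ?_ ?_) ?_
  · exact RP.eq hR (RF.of_primrec hR Primrec.snd) (RF.const hR none)
  · refine RP.not hR (RP.ex hR ?_)
    exact RP.comp hR hP (f := fun y : (β × Option γ) × γ => (y.1.1, y.2))
      (RF.of_primrec hR (Primrec.pair (Primrec.fst.comp Primrec.fst) Primrec.snd))
  · refine RP.ex hR (RP.and hR ?_ (RP.and hR ?_ (RP.not hR (RP.ex hR (RP.and hR ?_ ?_)))))
    · exact RP.eq hR (RF.of_primrec hR (Primrec.snd.comp Primrec.fst))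
        (RF.of_primrec hR (Primrec.option_some.comp Primrec.snd))
    · exact RP.comp hR hP (f := fun y : (β × Option γ) × γ => (y.1.1, y.2))
        (RF.of_primrec hR (Primrec.pair (Primrec.fst.comp Primrec.fst) Primrec.snd))
    · exact RP.comp hR hP (f := fun y : ((β × Option γ) × γ) × γ => (y.1.1.1, y.2))
        (RF.of_primrec hR (Primrec.pair (Primrec.fst.comp (Primrec.fst.comp Primrec.fst))
          Primrec.snd))
    · exact RP.lt hR (RF.of_primrec hR (Primrec.encode.comp Primrec.snd))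
        (RF.of_primrec hR (Primrec.encode.comp (Primrec.snd.comp Primrec.fst)))

theorem P2b_ini_append {x : ℕ → ℕ} {k : ℕ} {v w : List ℕ} (h : v ++ w = ini x k) :
    v = ini x v.length := by
  have h1 : v = (ini x k).take v.length := by
    rw [← h]; simp
  have h2 : v.length ≤ k := by
    have := congrArg List.length h
    simp [ini] at this
    omega
  rw [h1]
  unfold ini
  rw [List.length_take, List.length_map, List.length_range, min_eq_left h2, ← List.map_take,
    List.take_range, min_eq_left h2]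

theorem P2b_ini_le (x : ℕ → ℕ) {j k : ℕ} (h : j ≤ k) : ∃ w, ini x j ++ w = ini x k := by
  refine ⟨(ini x k).drop j, ?_⟩
  have : ini x j = (ini x k).take j := by
    unfold ini
    rw [← List.map_take, List.take_range, min_eq_left h]
  rw [this, List.take_append_drop]

/-- substitution of a number for a number parameter -/
theorem CF.sub (hR : RC R) {φ : (ℕ → ℕ) → α × ℕ → ℕ} (hφ : CF R φ) {ψ : (ℕ → ℕ) → α → ℕ}
    (hψ : CF R ψ) : CF R (fun x a => φ x (a, ψ x a)) := by
  obtain ⟨Θ, hΘ, h1⟩ := hφ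
  obtain ⟨Ξ, hΞ, h2⟩ := hψ
  let P : List ℕ × α → ℕ → Prop := fun b v => ∃ p : (List ℕ × List ℕ) × (List ℕ × List ℕ) × ℕ,
    p.1.1 ++ p.1.2 = b.1 ∧ p.2.1.1 ++ p.2.1.2 = b.1 ∧ Ξ (p.1.1, b.2) = some p.2.2 ∧
    Θ (p.2.1.1, (b.2, p.2.2)) = some v
  have hP : RP R (fun y : (List ℕ × α) × ℕ => P y.1 y.2) := by
    refine RP.ex hR (RP.and hR ?_ (RP.and hR ?_ (RP.and hR ?_ ?_)))
    · exact RP.eq hR (RF.of_primrec hR (Primrec.list_append.comp
        (Primrec.fst.comp (Primrec.fst.comp Primrec.snd))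
        (Primrec.snd.comp (Primrec.fst.comp Primrec.snd))))
        (RF.of_primrec hR (Primrec.fst.comp (Primrec.fst.comp Primrec.fst)))
    · exact RP.eq hR (RF.of_primrec hR (Primrec.list_append.comp
        (Primrec.fst.comp (Primrec.fst.comp (Primrec.snd.comp Primrec.snd)))
        (Primrec.snd.comp (Primrec.fst.comp (Primrec.snd.comp Primrec.snd)))))
        (RF.of_primrec hR (Primrec.fst.comp (Primrec.fst.comp Primrec.fst)))
    · refine RP.eq hR (RF.comp hR hΞ (RF.of_primrec hR ?_)) (RF.of_primrec hR ?_)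
      · exact Primrec.pair (Primrec.fst.comp (Primrec.fst.comp Primrec.snd))
          (Primrec.snd.comp (Primrec.fst.comp Primrec.fst))
      · exact Primrec.option_some.comp (Primrec.snd.comp (Primrec.snd.comp Primrec.snd))
    · refine RP.eq hR (RF.comp hR hΘ (RF.of_primrec hR ?_)) (RF.of_primrec hR ?_)
      · exact Primrec.pair (Primrec.fst.comp (Primrec.fst.comp (Primrec.snd.comp Primrec.snd)))
          (Primrec.pair (Primrec.snd.comp (Primrec.fst.comp Primrec.fst))
            (Primrec.snd.comp (Primrec.snd.comp Primrec.snd)))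
      · exact Primrec.option_some.comp (Primrec.snd.comp Primrec.fst)
  refine ⟨P2b_ch P, P2b_choose hR hP, fun x hx a => ?_⟩
  have uniq : ∀ k v, P (ini x k, a) v → v = φ x (a, ψ x a) := by
    rintro k v ⟨⟨⟨p1, p2⟩, ⟨q1, q2⟩, m⟩, e1, e2, e3, e4⟩
    simp only at e1 e2 e3 e4
    rw [P2b_ini_append e1] at e3
    rw [P2b_ini_append e2] at e4
    have hm := (h2 x hx a).2 _ _ e3
    subst hm
    exact (h1 x hx (a, ψ x a)).2 _ _ e4
  constructor
  · obtain ⟨k1, e1⟩ := (h2 x hx a).1
    obtain ⟨k2, e2⟩ := (h1 x hx (a, ψ x a)).1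
    obtain ⟨w1, hw1⟩ := P2b_ini_le x (le_max_left k1 k2)
    obtain ⟨w2, hw2⟩ := P2b_ini_le x (le_max_right k1 k2)
    have : P (ini x (max k1 k2), a) (φ x (a, ψ x a)) :=
      ⟨((ini x k1, w1), (ini x k2, w2), ψ x a), hw1, hw2, e1, e2⟩
    obtain ⟨c, hc⟩ := P2b_ch_some P _ ⟨_, this⟩
    have h3 := uniq _ _ (P2b_ch_spec P _ _ hc).1
    exact ⟨max k1 k2, by rw [hc, h3]⟩
  · intro k v hv
    exact uniq k v (P2b_ch_spec P _ _ hv).1

/-- substitution of a real -/
theorem CF.real (hR : RC R) {φ : (ℕ → ℕ) → α → ℕ} (hφ : CF R φ) {F : (ℕ → ℕ) → ℕ → ℕ}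
    (hF : CF R F) : CF R (fun x a => φ (F x) a) := by
  have hmem : ∀ x ∈ R, F x ∈ R := fun x hx => CF.mem hR hF hx
  obtain ⟨Θ, hΘ, h1⟩ := hφ
  obtain ⟨Ξ, hΞ, h2⟩ := hF
  let P : List ℕ × α → ℕ → Prop := fun b v => ∃ w : List ℕ, Θ (w, b.2) = some v ∧
    ∀ i : ℕ, ¬ i < w.length ∨ ∃ p : List ℕ × List ℕ, p.1 ++ p.2 = b.1 ∧ Ξ (p.1, i) = w[i]?
  have hP : RP R (fun y : (List ℕ × α) × ℕ => P y.1 y.2) := by
    refine RP.ex hR (RP.and hR ?_ (RP.all hR (RP.or hR (RP.not hR ?_) (RP.ex hR (RP.and hR ?_ ?_)))))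
    · refine RP.eq hR (RF.comp hR hΘ (RF.of_primrec hR ?_)) (RF.of_primrec hR ?_)
      · exact Primrec.pair Primrec.snd (Primrec.snd.comp (Primrec.fst.comp Primrec.fst))
      · exact Primrec.option_some.comp (Primrec.snd.comp Primrec.fst)
    · exact RP.lt hR (RF.of_primrec hR Primrec.snd)
        (RF.of_primrec hR (Primrec.list_length.comp (Primrec.snd.comp Primrec.fst)))
    · exact RP.eq hR (RF.of_primrec hR (Primrec.list_append.comp
        (Primrec.fst.comp Primrec.snd) (Primrec.snd.comp Primrec.snd)))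
        (RF.of_primrec hR (Primrec.fst.comp (Primrec.fst.comp (Primrec.fst.comp
          (Primrec.fst.comp Primrec.fst)))))
    · refine RP.eq hR (RF.comp hR hΞ (RF.of_primrec hR ?_)) (RF.of_primrec hR ?_)
      · exact Primrec.pair (Primrec.fst.comp Primrec.snd) (Primrec.snd.comp Primrec.fst)
      · exact Primrec.list_getElem?.comp (Primrec.snd.comp (Primrec.fst.comp Primrec.fst))
          (Primrec.snd.comp Primrec.fst)
  refine ⟨P2b_ch P, P2b_choose hR hP, fun x hx a => ?_⟩
  have uniq : ∀ k v, P (ini x k, a) v → v = φ (F x) a := by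
    rintro k v ⟨w, e1, e2⟩
    have hw : w = ini (F x) w.length := by
      apply List.ext_getElem?
      intro i
      by_cases hi : i < w.length
      · rcases e2 i with h | ⟨⟨p, q⟩, e3, e4⟩
        · exact absurd hi h
        · simp only at e3 e4
          rw [List.getElem?_eq_getElem hi] at e4 ⊢
          rw [P2b_ini_append e3] at e4
          have := (h2 x hx i).2 _ _ e4
          rw [this]
          simp [ini, hi]
      · rw [List.getElem?_eq_none (by omega), List.getElem?_eq_none (by simp [ini]; omega)]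
    rw [hw] at e1
    exact (h1 (F x) (hmem x hx) a).2 _ _ e1
  constructor
  · obtain ⟨k0, e0⟩ := (h1 (F x) (hmem x hx) a).1
    choose κ hκ using fun i => (h2 x hx i).1
    obtain ⟨K, hK⟩ : ∃ K, ∀ i < k0, κ i ≤ K :=
      ⟨(Finset.range k0).sup κ, fun i hi => Finset.le_sup (f := κ) (Finset.mem_range.2 hi)⟩
    have : P (ini x K, a) (φ (F x) a) := by
      refine ⟨ini (F x) k0, e0, fun i => ?_⟩
      by_cases hi : i < k0
      · right
        obtain ⟨w, hw⟩ := P2b_ini_le x (hK i hi)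
        refine ⟨(ini x (κ i), w), hw, ?_⟩
        simp only
        rw [hκ i]
        simp [ini, hi]
      · left
        simp [ini]
        omega
    obtain ⟨c, hc⟩ := P2b_ch_some P _ ⟨_, this⟩
    have h3 := uniq _ _ (P2b_ch_spec P _ _ hc).1
    exact ⟨K, by rw [hc, h3]⟩
  · intro k v hv
    exact uniq k v (P2b_ch_spec P _ _ hv).1

end Pool.Agent.H.MP_a163f2_lc
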