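import Pool.Agent.H.MP_a163f2_lc.P.P2

/-!
# Block P, part 3: closure properties of the projective classes over `R`
-/

set_option autoImplicit false

namespace Pool.Agent.H.MP_a163f2_lc

universe u

variable {R : Set (ℕ → ℕ)} {k n : ℕ} {P Q : (ℕ → ℕ) → Prop}

theorem SigP.congr (h : SigP R k P) (e : ∀ x ∈ R, Q x ↔ P x) : SigP R k Q := by
  have : {x | x ∈ R ∧ Q x} = {x | x ∈ R ∧ P x} := by
    ext x
    constructor
    · rintro ⟨h1, h2⟩; exact ⟨h1, (e x h1).1 h2⟩
    · rintro ⟨h1, h2⟩; exact ⟨h1, (e x h1).2 h2⟩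
  unfold SigP
  rw [this]
  exact h

theorem PiP.congr (h : PiP R k P) (e : ∀ x ∈ R, Q x ↔ P x) : PiP R k Q :=
  SigP.congr h fun x hx => not_congr (e x hx)

theorem PiP.of_not (h : SigP R k P) : PiP R k (fun x => ¬ P x) :=
  SigP.congr h fun _ _ => not_not

theorem PiP.iff_PiR {A : Set (ℕ → ℕ)} (hA : A ⊆ R) : PiR R k A ↔ PiP R k (fun x => x ∈ A) := by
  exact ⟨fun h => h.2, fun h => ⟨hA, h⟩⟩

theorem SigP.iff_Sig {A : Set (ℕ → ℕ)} (hA : A ⊆ R) : Sig R k A ↔ SigP R k (fun x => x ∈ A) := by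
  have : {x | x ∈ R ∧ x ∈ A} = A := by
    ext x
    exact ⟨fun h => h.2, fun h => ⟨hA h, h⟩⟩
  unfold SigP
  rw [this]

theorem Sig.subset {A : Set (ℕ → ℕ)} (h : Sig R k A) : A ⊆ R := by
  cases k with
  | zero =>
    obtain ⟨a, _, rfl⟩ := h
    exact fun x hx => hx.1
  | succ n =>
    obtain ⟨B, _, rfl⟩ := h
    exact fun x hx => hx.1

/-- open and closed conditions -/
theorem SigP.open (hR : RC R) {D : List ℕ → Prop} (hD : RP R D) :
    SigP R 0 (fun x => ∃ j, D (ini x j)) := by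
  classical
  have h1 : RP R (fun n : ℕ => ∃ l : List ℕ, Encodable.encode l = n ∧ D l) := by
    refine RP.ex hR (P := fun (n : ℕ) (l : List ℕ) => Encodable.encode l = n ∧ D l) ?_
    exact RP.and hR
      (RP.eq hR (RF.of_primrec hR (Primrec.encode.comp Primrec.snd))
        (RF.of_primrec hR Primrec.fst))
      (RP.comp hR hD (RF.of_primrec hR Primrec.snd))
  refine ⟨_, RP.ind hR h1, ?_⟩
  ext x
  refine and_congr_right fun _ => exists_congr fun j => ?_
  have key : ∀ (p : Prop) [Decidable p], ((if p then 1 else 0 : ℕ) ≠ 0) ↔ p := by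
    intro p _
    by_cases hp : p <;> simp [hp]
  refine Iff.trans ?_ (key _).symm
  constructor
  · intro h
    exact ⟨_, rfl, h⟩
  · rintro ⟨l, e, hl⟩
    rw [cd_eq] at e
    rwa [Encodable.encode_injective e] at hl

theorem SigP.exists_open (hR : RC R) (h : SigP R 0 P) : ∃ D : List ℕ → Prop, RP R D ∧
    ∀ x ∈ R, P x ↔ ∃ j, D (ini x j) := by
  obtain ⟨a, ha, e⟩ := h
  refine ⟨fun l => ¬ a (Encodable.encode l) = 0,
    RP.not hR (RP.comp hR (RP.mem hR ha) (RF.of_primrec hR Primrec.encode)), fun x hx => ?_⟩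
  have h1 : x ∈ {x | x ∈ R ∧ P x} ↔ P x := ⟨fun h => h.2, fun h => ⟨hx, h⟩⟩
  rw [← h1, e]
  simp only [Set.mem_ofPred_eq, cd_eq]
  exact ⟨fun h => h.2, fun h => ⟨hx, h⟩⟩

theorem P3a_lf_jn (x y : ℕ → ℕ) : lf (jn x y) = x := by
  funext n
  simp [lf, jn]

theorem P3a_rg_jn (x y : ℕ → ℕ) : rg (jn x y) = y := by
  funext n
  have h1 : (2 * n + 1) % 2 = 1 := by omega
  have h2 : (2 * n + 1) / 2 = n := by omega
  simp [rg, jn, h1, h2]

theorem P3a_jn_mem (hR : RC R) {x y : ℕ → ℕ} (hx : x ∈ R) (hy : y ∈ R) : jn x y ∈ R :=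
  CF.mem hR (F := fun _ n => jn x y n) (CF.jn hR (CF.cst hR hx) (CF.cst hR hy)) hx

theorem P3a_ini_take (x : ℕ → ℕ) (k m : ℕ) : (ini x m).take k = ini x (min k m) := by
  unfold ini
  rw [← List.map_take, List.take_range]

theorem P3a_ini_length (x : ℕ → ℕ) (m : ℕ) : (ini x m).length = m := by
  simp [ini]

theorem P3a_prefix {x : ℕ → ℕ} {u w : List ℕ} {m : ℕ} (h : u ++ w = ini x m) :
    u = ini x u.length := by
  have h1 : u.length ≤ m := by
    have := congrArg List.length h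
    rw [List.length_append, P3a_ini_length] at this
    omega
  have h2 : u = (ini x m).take u.length := by rw [← h, List.take_left']; rfl
  rw [P3a_ini_take, min_eq_left h1] at h2
  exact h2

theorem P3a_split (x : ℕ → ℕ) {k m : ℕ} (h : k ≤ m) : ∃ w, ini x k ++ w = ini x m := by
  refine ⟨(ini x m).drop k, ?_⟩
  have h1 : ini x k = (ini x m).take k := by rw [P3a_ini_take, min_eq_left h]
  rw [h1, List.take_append_drop]

theorem P3a_subst0 (hR : RC R) (h : SigP R 0 P) {F : (ℕ → ℕ) → ℕ → ℕ} (hF : CF R F) :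
    SigP R 0 (fun x => P (F x)) := by
  obtain ⟨D, hD, hP⟩ := SigP.exists_open hR h
  have hF0 := hF
  obtain ⟨Θ, hΘ, hFΘ⟩ := hF
  have hD' : RP R (fun l : List ℕ => ∃ v : List ℕ, D v ∧ ∀ i : ℕ, ¬ i < v.length ∨
      ∃ q : List ℕ × List ℕ, q.1 ++ q.2 = l ∧ Θ (q.1, i) = some (v.getD i 0)) := by
    refine RP.ex hR (P := fun (l v : List ℕ) => D v ∧ ∀ i : ℕ, ¬ i < v.length ∨
      ∃ q : List ℕ × List ℕ, q.1 ++ q.2 = l ∧ Θ (q.1, i) = some (v.getD i 0)) ?_
    refine RP.and hR (RP.comp hR hD (RF.of_primrec hR Primrec.snd)) ?_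
    refine RP.all hR (P := fun (y : List ℕ × List ℕ) (i : ℕ) => ¬ i < y.2.length ∨
      ∃ q : List ℕ × List ℕ, q.1 ++ q.2 = y.1 ∧ Θ (q.1, i) = some (y.2.getD i 0)) ?_
    refine RP.or hR (RP.not hR (RP.lt hR (RF.of_primrec hR Primrec.snd)
      (RF.of_primrec hR (Primrec.list_length.comp (Primrec.snd.comp Primrec.fst))))) ?_
    refine RP.ex hR (P := fun (y : (List ℕ × List ℕ) × ℕ) (q : List ℕ × List ℕ) =>
      q.1 ++ q.2 = y.1.1 ∧ Θ (q.1, y.2) = some (y.1.2.getD y.2 0)) ?_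
    refine RP.and hR (RP.eq hR (RF.of_primrec hR (Primrec.list_append.comp
      (Primrec.fst.comp Primrec.snd) (Primrec.snd.comp Primrec.snd)))
      (RF.of_primrec hR (Primrec.fst.comp (Primrec.fst.comp Primrec.fst)))) ?_
    refine RP.eq hR (RF.comp hR hΘ (RF.of_primrec hR (Primrec.pair
      (Primrec.fst.comp Primrec.snd) (Primrec.snd.comp Primrec.fst)))) ?_
    exact RF.of_primrec hR (Primrec.option_some.comp ((Primrec.list_getD 0).comp
      (Primrec.snd.comp (Primrec.fst.comp Primrec.fst)) (Primrec.snd.comp Primrec.fst)))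
  refine (SigP.open hR hD').congr fun x hx => ?_
  rw [hP (F x) (CF.mem hR hF0 hx)]
  constructor
  · rintro ⟨j, hj⟩
    choose κ hκ using fun i => (hFΘ x hx i).1
    refine ⟨(Finset.range j).sup κ, ini (F x) j, hj, fun i => ?_⟩
    rw [P3a_ini_length]
    by_cases hi : i < j
    · right
      obtain ⟨w, hw⟩ := P3a_split x (Finset.le_sup (f := κ) (Finset.mem_range.2 hi))
      refine ⟨(ini x (κ i), w), hw, ?_⟩
      rw [hκ i]
      congr 1
      simp [ini, List.getD, hi]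
    · exact Or.inl hi
  · rintro ⟨m, v, hv, hi⟩
    refine ⟨v.length, ?_⟩
    have : ini (F x) v.length = v := by
      apply List.ext_getElem
      · rw [P3a_ini_length]
      · intro i h1 h2
        obtain ⟨q, hq1, hq2⟩ := (hi i).resolve_left (not_not.2 h2)
        rw [P3a_prefix hq1] at hq2
        have h3 := (hFΘ x hx i).2 _ _ hq2
        simp only [ini, List.getElem_map, List.getElem_range]
        rw [← h3]
        simp [List.getD, h2]
    rw [this]
    exact hv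

/-- substitution -/
theorem SigP.subst (hR : RC R) (h : SigP R k P) {F : (ℕ → ℕ) → ℕ → ℕ} (hF : CF R F) :
    SigP R k (fun x => P (F x)) := by
  induction k generalizing P F with
  | zero => exact P3a_subst0 hR h hF
  | succ k ih =>
    obtain ⟨B, hB, e⟩ := h
    have hF' : CF R (fun z n => jn (F (lf z)) (rg z) n) :=
      CF.jn hR (CF.real hR hF (CF.lf hR (CF.id' hR))) (CF.rg hR (CF.id' hR))
    have hB' : SigP R k (fun z => jn (F (lf z)) (rg z) ∈ B) :=
      ih (P := fun x => x ∈ B) ((SigP.iff_Sig (Sig.subset hB)).1 hB) hF'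
    refine ⟨_, hB', ?_⟩
    ext x
    simp only [Set.mem_ofPred_eq]
    refine and_congr_right fun hx => ?_
    have hFx : F x ∈ R := CF.mem hR hF hx
    have h1 : F x ∈ {x | x ∈ R ∧ P x} ↔ P (F x) := ⟨fun h => h.2, fun h => ⟨hFx, h⟩⟩
    rw [← h1, e]
    simp only [Set.mem_ofPred_eq]
    constructor
    · rintro ⟨_, y, hy, hB⟩
      refine ⟨y, hy, fun hc => hB ?_⟩
      have := hc.2
      rwa [P3a_lf_jn, P3a_rg_jn] at this
    · rintro ⟨y, hy, hB⟩
      refine ⟨hFx, y, hy, fun hc => hB ⟨P3a_jn_mem hR hx hy, ?_⟩⟩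
      rwa [P3a_lf_jn, P3a_rg_jn]

theorem PiP.subst (hR : RC R) (h : PiP R k P) {F : (ℕ → ℕ) → ℕ → ℕ} (hF : CF R F) :
    PiP R k (fun x => P (F x)) := SigP.subst hR h hF

theorem P3a_clopen (hR : RC R) {Q : ℕ → Prop} (hQ : RP R Q) (k : ℕ)
    {φ : (ℕ → ℕ) → Unit → ℕ} (hφ : CF R φ) : SigP R k (fun x => Q (φ x ())) := by
  induction k generalizing Q φ with
  | zero =>
    obtain ⟨Θ, hΘ, hφΘ⟩ := hφ
    have hD : RP R (fun l : List ℕ => ∃ v : ℕ, Q v ∧ Θ (l, ()) = some v) := by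
      refine RP.ex hR (P := fun (l : List ℕ) (v : ℕ) => Q v ∧ Θ (l, ()) = some v) ?_
      refine RP.and hR (RP.comp hR hQ (RF.of_primrec hR Primrec.snd)) ?_
      exact RP.eq hR (RF.comp hR hΘ (RF.of_primrec hR (Primrec.pair Primrec.fst
        (Primrec.const ())))) (RF.of_primrec hR (Primrec.option_some.comp Primrec.snd))
    refine (SigP.open hR hD).congr fun x hx => ?_
    constructor
    · intro h
      obtain ⟨j, hj⟩ := (hφΘ x hx ()).1
      exact ⟨j, _, h, hj⟩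
    · rintro ⟨j, v, hv, hj⟩
      rw [← (hφΘ x hx ()).2 _ _ hj]
      exact hv
  | succ k ih =>
    have h1 : SigP R k (fun z => ¬ Q (φ (lf z) ())) :=
      ih (Q := fun n => ¬ Q n) (RP.not hR hQ) (φ := fun z u => φ (lf z) u)
        (CF.real hR hφ (CF.lf hR (CF.id' hR)))
    refine ⟨_, h1, ?_⟩
    ext x
    simp only [Set.mem_ofPred_eq]
    refine and_congr_right fun hx => ?_
    constructor
    · intro h
      refine ⟨x, hx, fun hc => hc.2 ?_⟩
      rwa [P3a_lf_jn]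
    · rintro ⟨y, hy, hB⟩
      by_contra hc
      apply hB
      refine ⟨P3a_jn_mem hR hx hy, ?_⟩
      rwa [P3a_lf_jn]

/-- clopen conditions are in all classes -/
theorem SigP.clopen (hR : RC R) {φ : (ℕ → ℕ) → Unit → ℕ} (hφ : CF R φ) (k : ℕ) :
    SigP R k (fun x => φ x () = 0) := by
  exact P3a_clopen hR (Q := fun n => n = 0)
    (RP.eq hR (RF.of_primrec hR Primrec.id) (RF.const hR 0)) k hφ

theorem SigP.clopen' (hR : RC R) {φ : (ℕ → ℕ) → Unit → ℕ} (hφ : CF R φ) (k : ℕ) :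
    SigP R k (fun x => φ x () ≠ 0) := by
  exact P3a_clopen hR (Q := fun n => n ≠ 0)
    (RP.not hR (RP.eq hR (RF.of_primrec hR Primrec.id) (RF.const hR 0))) k hφ

end Pool.Agent.H.MP_a163f2_lc
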