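import Pool.Agent.H.MP_a163f2_lc.P.P3a

/-!
# Block P, part 3: closure properties of the projective classes over `R`
-/

set_option autoImplicit false

namespace Pool.Agent.H.MP_a163f2_lc

universe u

variable {R : Set (ℕ → ℕ)} {k n : ℕ} {P Q : (ℕ → ℕ) → Prop}

theorem P3b_lf_jn (x y : ℕ → ℕ) : lf (jn x y) = x := by
  funext n
  simp only [lf, jn]
  rw [if_pos (by omega)]
  congr 1
  omega

theorem P3b_rg_jn (x y : ℕ → ℕ) : rg (jn x y) = y := by
  funext n
  simp only [rg, jn]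
  rw [if_neg (by omega)]
  congr 1
  omega

theorem P3b_jn_mem (hR : RC R) {x y : ℕ → ℕ} (hx : x ∈ R) (hy : y ∈ R) : jn x y ∈ R :=
  CF.mem hR (F := fun x n => jn x y n) (CF.jn hR (CF.id' hR) (CF.cst hR hy)) hx

theorem P3b_lf_mem (hR : RC R) {x : ℕ → ℕ} (hx : x ∈ R) : lf x ∈ R :=
  CF.mem hR (F := fun x n => lf x n) (CF.lf hR (CF.id' hR)) hx

theorem P3b_rg_mem (hR : RC R) {x : ℕ → ℕ} (hx : x ∈ R) : rg x ∈ R :=
  CF.mem hR (F := fun x n => rg x n) (CF.rg hR (CF.id' hR)) hx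

theorem P3b_const_mem (hR : RC R) (m : ℕ) : (fun _ => m) ∈ R := hR.prim _ (Nat.Primrec.const m)

/-- introduction of a quantifier -/
theorem P3b_ex_intro (hR : RC R) (h : PiP R k Q) :
    SigP R (k + 1) (fun x => ∃ y ∈ R, Q (jn x y)) := by
  refine ⟨{z | z ∈ R ∧ ¬ Q z}, h, ?_⟩
  ext x
  constructor
  · rintro ⟨hx, y, hy, hQ⟩
    exact ⟨hx, y, hy, fun h1 => h1.2 hQ⟩
  · rintro ⟨hx, y, hy, hQ⟩
    refine ⟨hx, y, hy, ?_⟩
    by_contra h1
    exact hQ ⟨P3b_jn_mem hR hx hy, h1⟩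

/-- elimination of a quantifier -/
theorem P3b_ex_elim (h : SigP R (k + 1) P) :
    ∃ Q, PiP R k Q ∧ ∀ x ∈ R, P x ↔ ∃ y ∈ R, Q (jn x y) := by
  obtain ⟨B, hB, he⟩ := h
  refine ⟨fun z => z ∉ B, ?_, ?_⟩
  · have hs : B ⊆ R := Sig.subset hB
    have h1 : {z | z ∈ R ∧ ¬ z ∉ B} = B := by
      ext z
      constructor
      · rintro ⟨_, h2⟩
        exact not_not.1 h2
      · intro h2
        exact ⟨hs h2, not_not.2 h2⟩
    unfold PiP SigP
    rw [h1]
    exact hB
  · intro x hx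
    have h1 : x ∈ {x | x ∈ R ∧ P x} ↔ x ∈ {x | x ∈ R ∧ ∃ y ∈ R, jn x y ∉ B} := by rw [he]
    constructor
    · intro h2
      exact (h1.1 ⟨hx, h2⟩).2
    · intro h2
      exact (h1.2 ⟨hx, h2⟩).2

theorem P3b_ini_len (x : ℕ → ℕ) (k : ℕ) : (ini x k).length = k := by simp [ini]

theorem P3b_ini_take (x : ℕ → ℕ) (k i : ℕ) : (ini x k).take i = ini x (min i k) := by
  unfold ini
  rw [← List.map_take, List.take_range]

theorem P3b_ini_getI (x : ℕ → ℕ) {k i : ℕ} (h : i < k) : (ini x k).getI i = x i := by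
  rw [List.getI_eq_getElem _ (by simpa [ini] using h)]
  simp [ini]

/-- the condition that the real `a` has the value `0` at the code of an initial segment -/
theorem P3b_base (hR : RC R) {a : ℕ → ℕ} (ha : a ∈ R) :
    SigP R 0 (fun z => a (cd (lf z) (rg z 0)) = 0) := by
  have hD : RP R (fun s : List ℕ => (a (Encodable.encode ((List.range (s.getI 1)).map
      fun i => s.getI (2 * i))) = 0) ∧ (2 * s.getI 1 ≤ s.length ∧ 2 ≤ s.length)) := by
    refine RP.and hR ?_ ?_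
    · refine RP.comp hR (RP.mem hR ha) (RF.of_primrec hR ?_)
      refine Primrec.encode.comp (Primrec.list_map (Primrec.list_range.comp
        (Primrec.list_getI.comp Primrec.id (Primrec.const 1))) ?_)
      exact Primrec.list_getI.comp Primrec.fst
        (Primrec.nat_mul.comp (Primrec.const 2) Primrec.snd)
    · refine RP.of_primrec hR ?_
      exact (Primrec.nat_le.comp (Primrec.nat_mul.comp (Primrec.const 2)
        (Primrec.list_getI.comp Primrec.id (Primrec.const 1))) Primrec.list_length).and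
        (Primrec.nat_le.comp (Primrec.const 2) Primrec.list_length)
  refine SigP.congr (SigP.open hR hD) ?_
  intro z _
  have key : ∀ j, 2 ≤ j → 2 * z 1 ≤ j → (List.range ((ini z j).getI 1)).map
      (fun i => (ini z j).getI (2 * i)) = ini (lf z) (z 1) := by
    intro j h2 h3
    rw [P3b_ini_getI z (by omega)]
    unfold ini
    refine List.map_congr_left ?_
    intro i hi
    rw [List.mem_range] at hi
    have := P3b_ini_getI z (k := j) (i := 2 * i) (by omega)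
    unfold ini at this
    rw [this]
    rfl
  have hrg : rg z 0 = z 1 := rfl
  rw [hrg, cd_eq]
  constructor
  · intro h
    refine ⟨max 2 (2 * z 1), ?_⟩
    rw [key _ (le_max_left _ _) (le_max_right _ _), P3b_ini_len, P3b_ini_getI z
      (lt_of_lt_of_le (by norm_num) (le_max_left 2 (2 * z 1)))]
    exact ⟨h, le_max_right _ _, le_max_left _ _⟩
  · rintro ⟨j, h1, h2, h3⟩
    rw [P3b_ini_len] at h2 h3
    rw [P3b_ini_getI z (by omega)] at h2
    rw [key j h3 h2] at h1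
    exact h1

theorem P3b_succ0 (hR : RC R) (h : SigP R 0 P) : SigP R 1 P := by
  obtain ⟨a, ha, he⟩ := h
  have h1 : PiP R 0 (fun z => a (cd (lf z) (rg z 0)) ≠ 0) :=
    SigP.congr (P3b_base hR ha) fun z _ => not_not
  refine SigP.congr (P3b_ex_intro hR h1) ?_
  intro x hx
  have h2 : x ∈ {x | x ∈ R ∧ P x} ↔ x ∈ {x | x ∈ R ∧ ∃ k, a (cd x k) ≠ 0} := by rw [he]
  constructor
  · intro h3
    obtain ⟨_, k, hk⟩ := h2.1 ⟨hx, h3⟩
    refine ⟨fun _ => k, P3b_const_mem hR k, ?_⟩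
    rw [P3b_lf_jn, P3b_rg_jn]
    exact hk
  · rintro ⟨y, _, hy⟩
    rw [P3b_lf_jn, P3b_rg_jn] at hy
    exact (h2.2 ⟨hx, _, hy⟩).2

/-- monotonicity -/
theorem SigP.succ (hR : RC R) (h : SigP R k P) : SigP R (k + 1) P := by
  induction k generalizing P with
  | zero => exact P3b_succ0 hR h
  | succ k ih =>
    obtain ⟨Q, hQ, he⟩ := P3b_ex_elim h
    exact SigP.congr (P3b_ex_intro hR (show PiP R (k + 1) Q from ih hQ)) he

theorem SigP.of_pi (hR : RC R) (h : PiP R k P) : SigP R (k + 1) P := by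
  have h1 : PiP R k (fun z => P (lf z)) :=
    PiP.subst hR (F := fun z n => lf z n) h (CF.lf hR (CF.id' hR))
  refine SigP.congr (P3b_ex_intro hR h1) ?_
  intro x _
  constructor
  · intro h2
    refine ⟨fun _ => 0, P3b_const_mem hR 0, ?_⟩
    rw [P3b_lf_jn]
    exact h2
  · rintro ⟨y, _, hy⟩
    rw [P3b_lf_jn] at hy
    exact hy

theorem PiP.succ (hR : RC R) (h : PiP R k P) : PiP R (k + 1) P := SigP.succ hR h

theorem PiP.of_sig (hR : RC R) (h : SigP R k P) : PiP R (k + 1) P :=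
  SigP.of_pi hR (PiP.of_not h)

theorem SigP.mono (hR : RC R) (h : SigP R k P) (hkn : k ≤ n) : SigP R n P := by
  induction n, hkn using Nat.le_induction with
  | base => exact h
  | succ n _ ih => exact SigP.succ hR ih

theorem PiP.mono (hR : RC R) (h : PiP R k P) (hkn : k ≤ n) : PiP R n P := SigP.mono hR h hkn

theorem P3b_and0 (hR : RC R) (hP : SigP R 0 P) (hQ : SigP R 0 Q) :
    SigP R 0 (fun x => P x ∧ Q x) := by
  obtain ⟨D1, hD1, h1⟩ := SigP.exists_open hR hP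
  obtain ⟨D2, hD2, h2⟩ := SigP.exists_open hR hQ
  have ht : RF R (fun y : List ℕ × ℕ => y.1.take y.2) :=
    RF.of_primrec hR (Primrec.list_take.comp Primrec.snd Primrec.fst)
  have hD : RP R (fun s : List ℕ => (∃ i : ℕ, D1 (s.take i)) ∧ (∃ i : ℕ, D2 (s.take i))) :=
    RP.and hR (RP.ex hR (P := fun (s : List ℕ) (i : ℕ) => D1 (s.take i)) (RP.comp hR hD1 ht))
      (RP.ex hR (P := fun (s : List ℕ) (i : ℕ) => D2 (s.take i)) (RP.comp hR hD2 ht))
  refine SigP.congr (SigP.open hR hD) ?_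
  intro x hx
  rw [h1 x hx, h2 x hx]
  constructor
  · rintro ⟨⟨i, hi⟩, ⟨j, hj⟩⟩
    refine ⟨max i j, ⟨i, ?_⟩, ⟨j, ?_⟩⟩
    · rw [P3b_ini_take, min_eq_left (le_max_left _ _)]
      exact hi
    · rw [P3b_ini_take, min_eq_left (le_max_right _ _)]
      exact hj
  · rintro ⟨m, ⟨i, hi⟩, ⟨j, hj⟩⟩
    rw [P3b_ini_take] at hi hj
    exact ⟨⟨_, hi⟩, ⟨_, hj⟩⟩

theorem P3b_or0 (hR : RC R) (hP : SigP R 0 P) (hQ : SigP R 0 Q) :
    SigP R 0 (fun x => P x ∨ Q x) := by
  obtain ⟨D1, hD1, h1⟩ := SigP.exists_open hR hP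
  obtain ⟨D2, hD2, h2⟩ := SigP.exists_open hR hQ
  refine SigP.congr (SigP.open hR (RP.or hR hD1 hD2)) ?_
  intro x hx
  rw [h1 x hx, h2 x hx]
  constructor
  · rintro (⟨i, hi⟩ | ⟨i, hi⟩)
    · exact ⟨i, Or.inl hi⟩
    · exact ⟨i, Or.inr hi⟩
  · rintro ⟨i, hi | hi⟩
    · exact Or.inl ⟨i, hi⟩
    · exact Or.inr ⟨i, hi⟩

theorem P3b_and_or (hR : RC R) (k : ℕ) : ∀ P Q : (ℕ → ℕ) → Prop, SigP R k P → SigP R k Q →
    SigP R k (fun x => P x ∧ Q x) ∧ SigP R k (fun x => P x ∨ Q x) := by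
  induction k with
  | zero => exact fun P Q hP hQ => ⟨P3b_and0 hR hP hQ, P3b_or0 hR hP hQ⟩
  | succ k ih =>
    intro P Q hP hQ
    obtain ⟨P', hP', h1⟩ := P3b_ex_elim hP
    obtain ⟨Q', hQ', h2⟩ := P3b_ex_elim hQ
    constructor
    · have c1 : CF R (fun z n => jn (lf z) (lf (rg z)) n) :=
        CF.jn hR (F := fun z n => lf z n) (G := fun z n => lf (rg z) n)
          (CF.lf hR (CF.id' hR)) (CF.lf hR (F := fun z n => rg z n) (CF.rg hR (CF.id' hR)))
      have c2 : CF R (fun z n => jn (lf z) (rg (rg z)) n) :=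
        CF.jn hR (F := fun z n => lf z n) (G := fun z n => rg (rg z) n)
          (CF.lf hR (CF.id' hR)) (CF.rg hR (F := fun z n => rg z n) (CF.rg hR (CF.id' hR)))
      have h3 : PiP R k (fun z => P' (jn (lf z) (lf (rg z))) ∧ Q' (jn (lf z) (rg (rg z)))) := by
        refine SigP.congr (ih _ _ (SigP.subst hR (F := fun z n => jn (lf z) (lf (rg z)) n) hP' c1)
          (SigP.subst hR (F := fun z n => jn (lf z) (rg (rg z)) n) hQ' c2)).2 ?_
        intro z _
        exact not_and_or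
      refine SigP.congr (P3b_ex_intro hR h3) ?_
      intro x hx
      rw [h1 x hx, h2 x hx]
      constructor
      · rintro ⟨⟨y, hy, h4⟩, ⟨y', hy', h5⟩⟩
        refine ⟨jn y y', P3b_jn_mem hR hy hy', ?_⟩
        rw [P3b_lf_jn, P3b_rg_jn, P3b_lf_jn, P3b_rg_jn]
        exact ⟨h4, h5⟩
      · rintro ⟨w, hw, h4⟩
        rw [P3b_lf_jn, P3b_rg_jn] at h4
        exact ⟨⟨_, P3b_lf_mem hR hw, h4.1⟩, ⟨_, P3b_rg_mem hR hw, h4.2⟩⟩
    · have h3 : PiP R k (fun z => P' z ∨ Q' z) := by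
        refine SigP.congr (ih _ _ hP' hQ').1 ?_
        intro z _
        exact not_or
      refine SigP.congr (P3b_ex_intro hR h3) ?_
      intro x hx
      rw [h1 x hx, h2 x hx]
      constructor
      · rintro (⟨y, hy, h4⟩ | ⟨y, hy, h4⟩)
        · exact ⟨y, hy, Or.inl h4⟩
        · exact ⟨y, hy, Or.inr h4⟩
      · rintro ⟨y, hy, h4 | h4⟩
        · exact Or.inl ⟨y, hy, h4⟩
        · exact Or.inr ⟨y, hy, h4⟩

/-- finite operations -/
theorem SigP.and (hR : RC R) (hP : SigP R k P) (hQ : SigP R k Q) :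
    SigP R k (fun x => P x ∧ Q x) := (P3b_and_or hR k P Q hP hQ).1

theorem SigP.or (hR : RC R) (hP : SigP R k P) (hQ : SigP R k Q) :
    SigP R k (fun x => P x ∨ Q x) := (P3b_and_or hR k P Q hP hQ).2

theorem PiP.and (hR : RC R) (hP : PiP R k P) (hQ : PiP R k Q) : PiP R k (fun x => P x ∧ Q x) :=
  SigP.congr (SigP.or hR hP hQ) fun _ _ => by tauto

theorem PiP.or (hR : RC R) (hP : PiP R k P) (hQ : PiP R k Q) : PiP R k (fun x => P x ∨ Q x) :=
  SigP.congr (SigP.and hR hP hQ) fun _ _ => by tauto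

end Pool.Agent.H.MP_a163f2_lc
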