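import Pool.Agent.H.MP_a163f2_lc.P.P3b

/-!
# Block P, part 3: closure properties of the projective classes over `R`
-/

set_option autoImplicit false

namespace Pool.Agent.H.MP_a163f2_lc

universe u

variable {R : Set (ℕ → ℕ)} {k n : ℕ} {P Q : (ℕ → ℕ) → Prop}

theorem P3c_lf_jn (x y : ℕ → ℕ) : lf (jn x y) = x := by
  funext n
  show (if (2 * n) % 2 = 0 then x (2 * n / 2) else y (2 * n / 2)) = x n
  rw [if_pos (by omega)]
  congr 1
  omega

theorem P3c_rg_jn (x y : ℕ → ℕ) : rg (jn x y) = y := by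
  funext n
  show (if (2 * n + 1) % 2 = 0 then x ((2 * n + 1) / 2) else y ((2 * n + 1) / 2)) = y n
  rw [if_neg (by omega)]
  congr 1
  omega

theorem P3c_cn_zero (i : ℕ) (x : ℕ → ℕ) : cn i x 0 = i := rfl

theorem P3c_tl_cn (i : ℕ) (x : ℕ → ℕ) : tl (cn i x) = x := rfl

theorem P3c_head (hR : RC R) {F : (ℕ → ℕ) → ℕ → ℕ} (hF : CF R F) (m : ℕ) :
    CF R (fun z (_ : Unit) => F z m) :=
  CF.par hR hF (g := fun _ : Unit => m) (RF.const hR m)

theorem P3c_jn_mem (hR : RC R) {x y : ℕ → ℕ} (hx : x ∈ R) (hy : y ∈ R) : jn x y ∈ R :=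
  CF.mem hR (CF.jn hR (CF.id' hR) (CF.cst hR hy)) hx

theorem P3c_lf_mem (hR : RC R) {x : ℕ → ℕ} (hx : x ∈ R) : lf x ∈ R :=
  CF.mem hR (CF.lf hR (CF.id' hR)) hx

theorem P3c_rg_mem (hR : RC R) {x : ℕ → ℕ} (hx : x ∈ R) : rg x ∈ R :=
  CF.mem hR (CF.rg hR (CF.id' hR)) hx

theorem P3c_tl_mem (hR : RC R) {x : ℕ → ℕ} (hx : x ∈ R) : tl x ∈ R :=
  CF.mem hR (CF.tl hR (CF.id' hR)) hx

theorem P3c_cn_mem (hR : RC R) (i : ℕ) {x : ℕ → ℕ} (hx : x ∈ R) : cn i x ∈ R :=
  CF.mem hR (CF.cn hR (CF.num hR (RF.const hR i)) (CF.id' hR)) hx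

theorem P3c_sec_mem (hR : RC R) (i : ℕ) {x : ℕ → ℕ} (hx : x ∈ R) : sec x i ∈ R :=
  CF.mem hR (CF.sec hR (CF.num hR (RF.const hR i)) (CF.id' hR)) hx

/-- The matrix of a predicate in the class with index `k + 1`. -/
theorem P3c_elim (h : SigP R (k + 1) Q) : ∃ P' : (ℕ → ℕ) → Prop, PiP R k P' ∧
    ∀ x ∈ R, Q x ↔ ∃ y ∈ R, P' (jn x y) := by
  obtain ⟨B, hB, e⟩ := h
  refine ⟨fun z => z ∉ B, ?_, fun x hx => ?_⟩
  · have h1 : SigP R k (fun z => z ∈ B) := (SigP.iff_Sig (Sig.subset hB)).1 hB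
    exact SigP.congr h1 fun z _ => not_not
  · have h1 : x ∈ {x | x ∈ R ∧ Q x} ↔ x ∈ {x | x ∈ R ∧ ∃ y ∈ R, jn x y ∉ B} := by rw [e]
    constructor
    · intro h2
      exact (h1.1 ⟨hx, h2⟩).2
    · intro h2
      exact (h1.2 ⟨hx, h2⟩).2

/-- The code of an initial segment is a continuous functional. -/
theorem P3c_cd (hR : RC R) : CF R (fun x (k : ℕ) => cd x k) := by
  refine ⟨fun y => if y.2 ≤ y.1.length then
    some (Encodable.encode ((List.range y.2).map fun n => y.1.getD n 0)) else none, ?_, ?_⟩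
  · refine RF.of_primrec hR ?_
    refine Primrec.ite (Primrec.nat_le.comp Primrec.snd (Primrec.list_length.comp Primrec.fst)) ?_
      (Primrec.const none)
    refine Primrec.option_some.comp (Primrec.encode.comp ?_)
    refine Primrec.list_map (Primrec.list_range.comp Primrec.snd) ?_
    exact (Primrec.list_getD 0).comp (Primrec.fst.comp Primrec.fst) Primrec.snd
  · intro x _ a
    have hlen : ∀ k, (ini x k).length = k := by
      intro k
      simp [ini]
    have hkey : ∀ k, a ≤ k → ((List.range a).map fun n => (ini x k).getD n 0) =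
        (List.range a).map x := by
      intro k hk
      refine List.map_congr_left fun n hn => ?_
      have h1 : n < k := lt_of_lt_of_le (List.mem_range.1 hn) hk
      simp [ini, List.getD, h1]
    constructor
    · refine ⟨a, ?_⟩
      show (if a ≤ (ini x a).length then
        some (Encodable.encode ((List.range a).map fun n => (ini x a).getD n 0)) else none) = _
      rw [if_pos (by rw [hlen]), hkey a le_rfl]
      rfl
    · intro k v hv
      change (if a ≤ (ini x k).length then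
        some (Encodable.encode ((List.range a).map fun n => (ini x k).getD n 0)) else none)
          = some v at hv
      by_cases h1 : a ≤ (ini x k).length
      · rw [if_pos h1, hkey k (by rwa [hlen] at h1)] at hv
        exact (Option.some.inj hv).symm
      · rw [if_neg h1] at hv
        exact absurd hv (by simp)

theorem P3c_ini_cn_zero (i : ℕ) (x : ℕ → ℕ) : ini (cn i x) 0 = [] := rfl

theorem P3c_ini_cn_succ (i : ℕ) (x : ℕ → ℕ) (j : ℕ) : ini (cn i x) (j + 1) = i :: ini x j := by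
  unfold ini
  rw [List.range_succ_eq_map, List.map_cons, List.map_map]
  rfl

theorem P3c_exR_pi (hR : RC R) {P : (ℕ → ℕ) → (ℕ → ℕ) → Prop}
    (h : PiP R k (fun z => P (lf z) (rg z))) : SigP R (k + 1) (fun x => ∃ y ∈ R, P x y) := by
  refine ⟨{z | z ∈ R ∧ ¬ P (lf z) (rg z)}, h, ?_⟩
  ext x
  constructor
  · rintro ⟨hx, y, hy, hP⟩
    refine ⟨hx, y, hy, fun h1 => h1.2 ?_⟩
    rw [P3c_lf_jn, P3c_rg_jn]
    exact hP
  · rintro ⟨hx, y, hy, hP⟩
    refine ⟨hx, y, hy, ?_⟩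
    by_contra h1
    refine hP ⟨P3c_jn_mem hR hx hy, ?_⟩
    rw [P3c_lf_jn, P3c_rg_jn]
    exact h1

/-- real quantifiers -/
theorem SigP.exR (hR : RC R) {P : (ℕ → ℕ) → (ℕ → ℕ) → Prop}
    (h : SigP R (k + 1) (fun z => P (lf z) (rg z))) : SigP R (k + 1) (fun x => ∃ y ∈ R, P x y) := by
  obtain ⟨P', hP', e⟩ := P3c_elim h
  have hid := CF.id' hR
  have h1 : PiP R k (fun z => P' (jn (jn (lf z) (lf (rg z))) (rg (rg z)))) :=
    PiP.subst hR hP' (CF.jn hR (CF.jn hR (CF.lf hR hid) (CF.lf hR (CF.rg hR hid)))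
      (CF.rg hR (CF.rg hR hid)))
  have h2 := P3c_exR_pi hR (P := fun x u => P' (jn (jn x (lf u)) (rg u))) h1
  refine SigP.congr h2 fun x hx => ?_
  constructor
  · rintro ⟨y, hy, hP⟩
    have h3 : P (lf (jn x y)) (rg (jn x y)) := by rw [P3c_lf_jn, P3c_rg_jn]; exact hP
    obtain ⟨w, hw, h4⟩ := (e _ (P3c_jn_mem hR hx hy)).1 h3
    refine ⟨jn y w, P3c_jn_mem hR hy hw, ?_⟩
    show P' (jn (jn x (lf (jn y w))) (rg (jn y w)))
    rw [P3c_lf_jn, P3c_rg_jn]
    exact h4
  · rintro ⟨u, hu, h3⟩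
    have hl := P3c_lf_mem hR hu
    have h4 := (e _ (P3c_jn_mem hR hx hl)).2 ⟨rg u, P3c_rg_mem hR hu, h3⟩
    rw [P3c_lf_jn, P3c_rg_jn] at h4
    exact ⟨lf u, hl, h4⟩

theorem PiP.allR (hR : RC R) {P : (ℕ → ℕ) → (ℕ → ℕ) → Prop}
    (h : PiP R (k + 1) (fun z => P (lf z) (rg z))) : PiP R (k + 1) (fun x => ∀ y ∈ R, P x y) := by
  have h1 : SigP R (k + 1) (fun x => ∃ y ∈ R, ¬ P x y) :=
    SigP.exR hR (P := fun x y => ¬ P x y) h
  exact SigP.congr h1 fun x _ => by push Not; rfl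

theorem SigP.exR_pi (hR : RC R) {P : (ℕ → ℕ) → (ℕ → ℕ) → Prop}
    (h : PiP R k (fun z => P (lf z) (rg z))) : SigP R (k + 1) (fun x => ∃ y ∈ R, P x y) := by
  exact P3c_exR_pi hR h

/-- number quantifiers -/
theorem SigP.exN (hR : RC R) {P : ℕ → (ℕ → ℕ) → Prop} (h : SigP R k (fun z => P (z 0) (tl z))) :
    SigP R k (fun x => ∃ i, P i x) := by
  have hid := CF.id' hR
  cases k with
  | zero =>
    obtain ⟨D, hD, e⟩ := SigP.exists_open hR h
    have h1 : RP R (fun u : List ℕ => ∃ i : ℕ, D (i :: u)) := by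
      refine RP.ex hR (P := fun (u : List ℕ) (i : ℕ) => D (i :: u)) ?_
      exact RP.comp hR hD (f := fun y : List ℕ × ℕ => y.2 :: y.1)
        (RF.of_primrec hR (Primrec.list_cons.comp Primrec.snd Primrec.fst))
    have h2 : RP R (fun _ : List ℕ => D []) :=
      RP.comp hR hD (f := fun _ : List ℕ => ([] : List ℕ)) (RF.const hR [])
    have h3 := SigP.open hR (RP.or hR h1 h2)
    refine SigP.congr h3 fun x hx => ?_
    constructor
    · rintro ⟨i, hi⟩
      obtain ⟨j, hj⟩ := (e (cn i x) (P3c_cn_mem hR i hx)).1 hi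
      cases j with
      | zero => exact ⟨0, Or.inr hj⟩
      | succ j =>
        rw [P3c_ini_cn_succ] at hj
        exact ⟨j, Or.inl ⟨i, hj⟩⟩
    · rintro ⟨j, ⟨i, hi⟩ | h4⟩
      · refine ⟨i, (e (cn i x) (P3c_cn_mem hR i hx)).2 ⟨j + 1, ?_⟩⟩
        rw [P3c_ini_cn_succ]
        exact hi
      · exact ⟨0, (e (cn 0 x) (P3c_cn_mem hR 0 hx)).2 ⟨0, h4⟩⟩
  | succ k =>
    obtain ⟨P', hP', e⟩ := P3c_elim h
    have h1 : PiP R k (fun z => P' (jn (cn (rg z 0) (lf z)) (tl (rg z)))) :=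
      PiP.subst hR hP' (CF.jn hR (CF.cn hR (P3c_head hR (CF.rg hR hid) 0) (CF.lf hR hid))
        (CF.tl hR (CF.rg hR hid)))
    have h2 := P3c_exR_pi hR (P := fun x u => P' (jn (cn (u 0) x) (tl u))) h1
    refine SigP.congr h2 fun x hx => ?_
    constructor
    · rintro ⟨i, hi⟩
      obtain ⟨y, hy, h3⟩ := (e (cn i x) (P3c_cn_mem hR i hx)).1 hi
      exact ⟨cn i y, P3c_cn_mem hR i hy, h3⟩
    · rintro ⟨u, hu, h3⟩
      exact ⟨u 0, (e (cn (u 0) x) (P3c_cn_mem hR (u 0) hx)).2 ⟨tl u, P3c_tl_mem hR hu, h3⟩⟩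

theorem SigP.allN (hR : RA R) {P : ℕ → (ℕ → ℕ) → Prop}
    (h : SigP R (k + 1) (fun z => P (z 0) (tl z))) : SigP R (k + 1) (fun x => ∀ i, P i x) := by
  have hC : RC R := hR.toRC
  have hid := CF.id' hC
  have h0 := P3c_head hC hid 0
  obtain ⟨P', hP', e⟩ := P3c_elim h
  have h1 : SigP R k (fun z' => ¬ P' (jn (cn (z' 0) (lf (tl z'))) (sec (rg (tl z')) (z' 0)))) :=
    PiP.subst hC hP' (CF.jn hC (CF.cn hC h0 (CF.lf hC (CF.tl hC hid)))
      (CF.sec hC h0 (CF.rg hC (CF.tl hC hid))))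
  have h2 : SigP R k (fun z => ∃ i, ¬ P' (jn (cn i (lf z)) (sec (rg z) i))) :=
    SigP.exN hC (P := fun i z => ¬ P' (jn (cn i (lf z)) (sec (rg z) i))) h1
  have h3 : PiP R k (fun z => ∀ i, P' (jn (cn i (lf z)) (sec (rg z) i))) :=
    SigP.congr h2 fun z _ => by push Not; rfl
  have h4 := P3c_exR_pi hC (P := fun x y => ∀ i, P' (jn (cn i x) (sec y i))) h3
  refine SigP.congr h4 fun x hx => ?_
  constructor
  · intro hall
    have h5 : PiP R k (fun z => P' (jn (cn (z 0) x) (tl z))) :=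
      PiP.subst hC hP' (CF.jn hC (CF.cn hC h0 (CF.cst hC hx)) (CF.tl hC hid))
    obtain ⟨y, hy, h6⟩ := hR.ac k (fun z => P' (jn (cn (z 0) x) (tl z))) h5 fun i => by
      obtain ⟨y, hy, h7⟩ := (e (cn i x) (P3c_cn_mem hC i hx)).1 (hall i)
      exact ⟨y, hy, h7⟩
    exact ⟨y, hy, h6⟩
  · rintro ⟨y, hy, h5⟩ i
    exact (e (cn i x) (P3c_cn_mem hC i hx)).2 ⟨sec y i, P3c_sec_mem hC i hy, h5 i⟩

theorem PiP.allN (hR : RC R) {P : ℕ → (ℕ → ℕ) → Prop} (h : PiP R k (fun z => P (z 0) (tl z))) :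
    PiP R k (fun x => ∀ i, P i x) := by
  have h1 : SigP R k (fun x => ∃ i, ¬ P i x) := SigP.exN hR (P := fun i x => ¬ P i x) h
  exact SigP.congr h1 fun x _ => by push Not; rfl

theorem PiP.exN (hR : RA R) {P : ℕ → (ℕ → ℕ) → Prop}
    (h : PiP R (k + 1) (fun z => P (z 0) (tl z))) : PiP R (k + 1) (fun x => ∃ i, P i x) := by
  have h1 : SigP R (k + 1) (fun x => ∀ i, ¬ P i x) := SigP.allN hR (P := fun i x => ¬ P i x) h
  exact SigP.congr h1 fun x _ => by push Not; rfl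

/-- For `k = 1` no choice is needed in the following form: a closed-or-open matrix with number
quantifiers.  Arithmetical conditions are in both classes with index 1. -/
theorem SigP.arith_allN (hR : RC R) {P : ℕ → (ℕ → ℕ) → Prop}
    (h : SigP R 0 (fun z => P (z 0) (tl z))) : SigP R 1 (fun x => ∀ i, P i x) := by
  classical
  obtain ⟨D, hD, e⟩ := SigP.exists_open hR h
  have hid := CF.id' hR
  have h0 := P3c_head hR hid 0
  -- the indicator of `D` on codes
  have hDc : RP R (fun c : ℕ => D ((Encodable.decode (α := List ℕ) c).getD [])) :=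
    RP.comp hR hD (f := fun c : ℕ => (Encodable.decode (α := List ℕ) c).getD [])
      (RF.of_primrec hR (Primrec.option_getD.comp Primrec.decode (Primrec.const [])))
  have hg : RF R (fun c : ℕ => if D ((Encodable.decode (α := List ℕ) c).getD []) then 1 else 0) :=
    RF.ite hR hDc (RF.const hR 1) (RF.const hR 0)
  -- the clopen condition
  have hF : CF R (fun z => cn (z 0) (lf (tl z))) :=
    CF.cn hR h0 (CF.lf hR (CF.tl hR hid))
  have hc1 : CF R (fun z (y : Unit × ℕ) => cd (cn (z 0) (lf (tl z))) y.2) :=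
    CF.par hR (CF.real hR (P3c_cd hR) hF) (g := fun y : Unit × ℕ => y.2)
      (RF.of_primrec hR Primrec.snd)
  have hc2 : CF R (fun z (_ : Unit) => rg (tl z) (z 0)) := by
    have h1 : CF R (fun z (y : Unit × ℕ) => rg (tl z) y.2) :=
      CF.par hR (CF.rg hR (CF.tl hR hid)) (g := fun y : Unit × ℕ => y.2)
        (RF.of_primrec hR Primrec.snd)
    exact CF.sub hR h1 h0
  have hc3 := CF.comp1 hR hg (CF.sub hR hc1 hc2)
  have hdec : ∀ (x : ℕ → ℕ) (k : ℕ),
      (Encodable.decode (α := List ℕ) (cd x k)).getD [] = ini x k := by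
    intro x k
    rw [cd_eq, Encodable.encodek]
    rfl
  have h1 : SigP R 0 (fun z => ¬ D (ini (cn (z 0) (lf (tl z))) (rg (tl z) (z 0)))) := by
    refine SigP.congr (SigP.clopen hR hc3 0) fun z _ => ?_
    show _ ↔ (if D ((Encodable.decode (α := List ℕ)
      (cd (cn (z 0) (lf (tl z))) (rg (tl z) (z 0)))).getD []) then 1 else 0) = 0
    rw [hdec]
    by_cases hd : D (ini (cn (z 0) (lf (tl z))) (rg (tl z) (z 0)))
    · simp [hd]
    · simp [hd]
  have h2 : SigP R 0 (fun z => ∃ i, ¬ D (ini (cn i (lf z)) (rg z i))) :=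
    SigP.exN hR (P := fun i z => ¬ D (ini (cn i (lf z)) (rg z i))) h1
  have h3 : PiP R 0 (fun z => ∀ i, D (ini (cn i (lf z)) (rg z i))) :=
    SigP.congr h2 fun z _ => by push Not; rfl
  have h4 := P3c_exR_pi hR (P := fun x y => ∀ i, D (ini (cn i x) (y i))) h3
  refine SigP.congr h4 fun x hx => ?_
  constructor
  · intro hall
    have hex : ∀ i, ∃ j, D (ini (cn i x) j) := fun i =>
      (e (cn i x) (P3c_cn_mem hR i hx)).1 (hall i)
    refine ⟨fun i => Nat.find (hex i), ?_, fun i => Nat.find_spec (hex i)⟩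
    refine (RF.mem hR).1 (RF.of_graph hR ?_)
    -- the initial segments as a function in `R`
    have hi : RF R (fun y : ℕ × ℕ => ini (cn y.1 x) y.2) := by
      have ha : RF R (fun y : ℕ × ℕ => if y.2 = 0 then ([] : List ℕ)
          else y.1 :: ini x (y.2 - 1)) := by
        refine RF.ite hR (P := fun y : ℕ × ℕ => y.2 = 0) ?_ (RF.const hR []) ?_
        · exact RP.eq hR (RF.of_primrec hR Primrec.snd) (RF.const hR 0)
        · have hb : RF R (fun y : ℕ × ℕ => (y.1, ini x (y.2 - 1))) :=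
            RF.pair hR (RF.of_primrec hR Primrec.fst)
              (RF.comp hR (RF.ini hR hx) (g := fun y : ℕ × ℕ => y.2 - 1)
                (RF.of_primrec hR (Primrec.nat_sub.comp Primrec.snd (Primrec.const 1))))
          exact RF.comp hR (f := fun w : ℕ × List ℕ => w.1 :: w.2)
            (RF.of_primrec hR (Primrec.list_cons.comp Primrec.fst Primrec.snd)) hb
      have hb : (fun y : ℕ × ℕ => ini (cn y.1 x) y.2) = (fun y : ℕ × ℕ =>
          if y.2 = 0 then ([] : List ℕ) else y.1 :: ini x (y.2 - 1)) := by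
        funext y
        obtain ⟨i, j⟩ := y
        cases j with
        | zero => rfl
        | succ j =>
          show ini (cn i x) (j + 1) = _
          rw [P3c_ini_cn_succ]
          rfl
      rw [hb]
      exact ha
    have hd : RP R (fun y : ℕ × ℕ => D (ini (cn y.1 x) y.2)) := RP.comp hR hD hi
    have hl : RP R (fun y : ℕ × ℕ => ∀ b : ℕ, ¬ (b < y.2 ∧ D (ini (cn y.1 x) b))) := by
      refine RP.all hR (P := fun (y : ℕ × ℕ) (b : ℕ) => ¬ (b < y.2 ∧ D (ini (cn y.1 x) b))) ?_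
      refine RP.not hR (RP.and hR ?_ ?_)
      · exact RP.lt hR (RF.of_primrec hR Primrec.snd)
          (RF.of_primrec hR (Primrec.snd.comp Primrec.fst))
      · exact RP.comp hR hd (f := fun w : (ℕ × ℕ) × ℕ => (w.1.1, w.2))
          (RF.of_primrec hR (Primrec.pair (Primrec.fst.comp Primrec.fst) Primrec.snd))
    have hfin := RP.and hR hd hl
    have heq : (fun y : ℕ × ℕ => Nat.find (hex y.1) = y.2) = (fun y : ℕ × ℕ =>
        D (ini (cn y.1 x) y.2) ∧ ∀ b : ℕ, ¬ (b < y.2 ∧ D (ini (cn y.1 x) b))) := by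
      funext y
      rw [Nat.find_eq_iff]
      refine propext (and_congr Iff.rfl ?_)
      constructor
      · rintro h5 b ⟨h6, h7⟩
        exact h5 b h6 h7
      · intro h5 b h6 h7
        exact h5 b ⟨h6, h7⟩
    rw [heq]
    exact hfin
  · rintro ⟨y, _, h5⟩ i
    exact (e (cn i x) (P3c_cn_mem hR i hx)).2 ⟨y i, h5 i⟩

end Pool.Agent.H.MP_a163f2_lc
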